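import Pool.Agent.L0h9.Tri.Field

/-! Potential density. -/

namespace Pool.Agent.L0h9.Tri

open MvPolynomial

section base

variable {K L : Type*} [Field K] [Field L] (φ : K →+* L) {r : ℕ}

theorem truncate_map (P : MvPolynomial (Fin r) K) (a : Fin r → K) (i : Fin r) :
    truncate (map φ P) (fun j => φ (a j)) i = map φ (truncate P a i) := by
  rw [truncate, truncate, aeval_def, eval₂_map, aeval_def, eval₂_eq', eval₂_eq', map_sum]
  refine Finset.sum_congr rfl fun m _ => ?_
  rw [map_mul, map_prod]
  congr 1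
  · rw [RingHom.comp_apply, algebraMap_eq, algebraMap_eq, map_C]
  · refine Finset.prod_congr rfl fun j _ => ?_
    rw [map_pow]
    congr 1
    by_cases h : j < i
    · rw [if_pos h, if_pos h, map_C]
    · rw [if_neg h, if_neg h, map_X]

theorem degreeOf_map_eq (P : MvPolynomial (Fin r) K) (i : Fin r) :
    degreeOf i (map φ P) = degreeOf i P := by
  classical
  unfold degreeOf
  rw [degrees_map_of_injective P φ.injective]

theorem eval_map_eq (P : MvPolynomial (Fin r) K) (a : Fin r → K) :
    eval (fun j => φ (a j)) (map φ P) = φ (eval a P) := by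
  rw [eval_map]
  exact (eval₂_comp_left φ (RingHom.id K) a P).symm ▸ rfl

theorem isTri_map_iff (P : MvPolynomial (Fin (r + 1)) K) (a : Fin (r + 1) → K) :
    IsTri (map φ P) (fun j => φ (a j)) ↔ IsTri P a := by
  have h1 : ∀ i, degreeOf i (truncate (map φ P) (fun j => φ (a j)) i) =
      degreeOf i (truncate P a i) := fun i => by rw [truncate_map, degreeOf_map_eq]
  have h2 : ∀ i, eval (fun j => φ (a j)) (pderiv i (map φ P)) = φ (eval a (pderiv i P)) :=
    fun i => by rw [pderiv_map, eval_map_eq]
  constructor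
  · rintro ⟨z, d, s, l⟩
    refine ⟨?_, fun i => ?_, fun i hi h => ?_, ?_⟩
    · rw [eval_map_eq] at z
      exact (map_eq_zero φ).mp z
    · rw [← h1]; exact d i
    · have := s i hi (by rwa [h1])
      rw [h2] at this
      exact fun h0 => this (by rw [h0, map_zero])
    · intro h0
      apply l
      rw [truncate_map, h0, map_zero]
  · rintro ⟨z, d, s, l⟩
    refine ⟨?_, fun i => ?_, fun i hi h => ?_, ?_⟩
    · rw [eval_map_eq, z, map_zero]
    · rw [h1]; exact d i
    · rw [h2]
      rw [h1] at h
      exact (map_ne_zero φ).mpr (s i hi h)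
    · rw [truncate_map]
      intro h0
      exact l (map_injective φ φ.injective (by rw [h0, map_zero]))

theorem lastPoly_map (P : MvPolynomial (Fin (r + 1)) K) (a : Fin (r + 1) → K) :
    lastPoly (map φ P) (fun j => φ (a j)) = (lastPoly P a).map φ := by
  rw [lastPoly, lastPoly, aeval_def, eval₂_map, aeval_def, eval₂_eq', eval₂_eq',
    Polynomial.map_sum]
  refine Finset.sum_congr rfl fun m _ => ?_
  rw [Polynomial.map_mul, Polynomial.map_prod]
  congr 1
  · rw [RingHom.comp_apply, Polynomial.algebraMap_eq, Polynomial.algebraMap_eq, Polynomial.map_C]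
  · refine Finset.prod_congr rfl fun j _ => ?_
    rw [Polynomial.map_pow]
    congr 1
    by_cases h : j = Fin.last r
    · rw [if_pos h, if_pos h, Polynomial.map_add, Polynomial.map_X, Polynomial.map_C]
    · rw [if_neg h, if_neg h, Polynomial.map_C]

end base

/-- `(w, x)`, with `w = p 0` and `x i = p i.succ`, is on `w² = P(x)`. -/
def OnCover {K : Type*} [Field K] {r : ℕ} (P : MvPolynomial (Fin r) K)
    (p : Fin (r + 1) → K) : Prop := p 0 ^ 2 = eval (fun i => p i.succ) P

/-- The `K`-points are dense on `w² = P(x)`. -/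
def CoverDense {K : Type*} [Field K] {r : ℕ} (P : MvPolynomial (Fin r) K) : Prop :=
  ∀ G : MvPolynomial (Fin (r + 1)) K, (∀ p : Fin (r + 1) → K, OnCover P p → eval p G = 0) →
    (X 0 ^ 2 - rename Fin.succ P) ∣ G

theorem finSuccEquiv_rename_succ {K : Type*} [Field K] {r : ℕ} (P : MvPolynomial (Fin r) K) :
    finSuccEquiv K r (rename Fin.succ P) = Polynomial.C P := by
  induction P using MvPolynomial.induction_on with
  | C c => rw [rename_C, finSuccEquiv_apply]; simp
  | add p q hp hq => rw [map_add, map_add, hp, hq, Polynomial.C_add]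
  | mul_X p n hp =>
    rw [map_mul, map_mul, hp, rename_X, finSuccEquiv_X_succ, Polynomial.C_mul]

theorem coverDense_of {K : Type*} [Field K] [CharZero K] {r : ℕ} (P : MvPolynomial (Fin r) K)
    (h : ∀ G : MvPolynomial (Fin r) K,
      (∀ x : Fin r → K, (∃ w : K, w ≠ 0 ∧ w ^ 2 = eval x P) → eval x G = 0) → G = 0) :
    CoverDense P := by
  intro G hG
  set g := finSuccEquiv K r G with hg
  set Q : Polynomial (MvPolynomial (Fin r) K) := Polynomial.X ^ 2 - Polynomial.C P with hQ
  have hQm : Q.Monic := Polynomial.monic_X_pow_sub_C _ (by norm_num)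
  have hQd : Q.natDegree = 2 := Polynomial.natDegree_X_pow_sub_C
  set R := g %ₘ Q with hR
  have hrd : R.natDegree < 2 := by
    have := Polynomial.natDegree_modByMonic_lt g hQm (by
      intro h1
      rw [h1] at hQd
      simp at hQd)
    rwa [hQd] at this
  have hdiv : g = R + Q * (g /ₘ Q) := (Polynomial.modByMonic_add_div g Q).symm
  have ev : ∀ (x : Fin r → K) (w : K), w ^ 2 = eval x P →
      eval (Fin.cons w x : Fin (r + 1) → K) G = eval x (R.coeff 0) + eval x (R.coeff 1) * w := by
    intro x w hw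
    rw [eval_eq_eval_mv_eval', ← hg, hdiv, Polynomial.map_add, Polynomial.map_mul,
      Polynomial.eval_add, Polynomial.eval_mul]
    have hQe : (Q.map (eval x)).eval w = 0 := by
      rw [hQ, Polynomial.map_sub, Polynomial.map_pow, Polynomial.map_X, Polynomial.map_C,
        Polynomial.eval_sub, Polynomial.eval_pow, Polynomial.eval_X, Polynomial.eval_C, hw,
        sub_self]
    rw [hQe, zero_mul, add_zero, Polynomial.eval_eq_sum_range' (n := 2)
        (lt_of_le_of_lt Polynomial.natDegree_map_le hrd)]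
    simp [Finset.sum_range_succ]
  have hpt : ∀ (x : Fin r → K) (w : K), w ^ 2 = eval x P →
      OnCover P (Fin.cons w x : Fin (r + 1) → K) := by
    intro x w hw
    rw [OnCover, Fin.cons_zero, hw]
    simp only [Fin.cons_succ]
  have h0 : ∀ (x : Fin r → K) (w : K), w ≠ 0 → w ^ 2 = eval x P →
      eval x (R.coeff 0) = 0 ∧ eval x (R.coeff 1) = 0 := by
    intro x w hw0 hw
    have e1 := hG _ (hpt x w hw)
    have e2 := hG _ (hpt x (-w) (by rw [neg_sq]; exact hw))
    rw [ev x w hw] at e1
    rw [ev x (-w) (by rw [neg_sq]; exact hw)] at e2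
    have e3 : 2 * eval x (R.coeff 0) = 0 := by linear_combination e1 + e2
    have e4 : 2 * w * eval x (R.coeff 1) = 0 := by linear_combination e1 - e2
    exact ⟨(mul_eq_zero.mp e3).resolve_left two_ne_zero,
      (mul_eq_zero.mp e4).resolve_left (mul_ne_zero two_ne_zero hw0)⟩
  have c0 : R.coeff 0 = 0 := h _ fun x ⟨w, hw0, hw⟩ => (h0 x w hw0 hw).1
  have c1 : R.coeff 1 = 0 := h _ fun x ⟨w, hw0, hw⟩ => (h0 x w hw0 hw).2
  have hR0 : R = 0 := by
    ext1 k
    rw [Polynomial.coeff_zero]
    rcases Nat.lt_or_ge k 2 with hk | hk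
    · interval_cases k
      · exact c0
      · exact c1
    · exact Polynomial.coeff_eq_zero_of_natDegree_lt (by omega)
  have hdvd : Q ∣ g := ⟨g /ₘ Q, by rw [hR0, zero_add] at hdiv; exact hdiv⟩
  have hQ' : finSuccEquiv K r (X 0 ^ 2 - rename Fin.succ P) = Q := by
    rw [map_sub, map_pow, finSuccEquiv_X_zero, finSuccEquiv_rename_succ]
  rw [← hQ', hg] at hdvd
  obtain ⟨c, hc⟩ := hdvd
  refine ⟨(finSuccEquiv K r).symm c, ?_⟩
  apply (finSuccEquiv K r).injective
  rw [hc, map_mul, AlgEquiv.apply_symm_apply]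

/-- The `K`-points are dense if the seed condition is satisfied over `K`. -/
theorem dense_of_seed {K : Type*} [Field K] [CharZero K] (f : K →+* PadicAlgCl 2) {r : ℕ}
    (P : MvPolynomial (Fin (r + 1)) K) (a : Fin (r + 1) → K)
    (h : IsTri P a) (hseed : Seed f (lastPoly P a)) : CoverDense P := by
  refine coverDense_of P fun G hG => ?_
  refine dense_field (M := K) f P a h hseed G ?_
  intro x hx
  exact hG x hx

/-- Quadratic extensions with a seed. -/
theorem exists_seed {K : Type*} (Ω : Type*) [Field K] [Field Ω] [CharZero K] [CharZero Ω]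
    [Algebra.IsAlgebraic ℚ Ω] [Algebra K Ω] [IsAlgClosed Ω] (g : Polynomial K) :
    ∃ (L : IntermediateField K Ω) (f : L →+* PadicAlgCl 2),
      FiniteDimensional K L ∧ Module.finrank K L ≤ 2 ∧ Seed f (g.map (algebraMap K L)) := by
  let F : Ω →ₐ[ℚ] PadicAlgCl 2 := IsAlgClosed.lift
  -- the extension by a square root
  have key : ∀ (c : K), ∃ (L : IntermediateField K Ω) (β : L),
      FiniteDimensional K L ∧ Module.finrank K L ≤ 2 ∧ β ^ 2 = algebraMap K L c := by
    intro c
    obtain ⟨β, hβ⟩ := IsAlgClosed.exists_pow_nat_eq (algebraMap K Ω c)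
      (n := 2) (by norm_num)
    have hint : IsIntegral K β := by
      refine ⟨Polynomial.X ^ 2 - Polynomial.C c, Polynomial.monic_X_pow_sub_C _ (by norm_num), ?_⟩
      rw [Polynomial.eval₂_sub, Polynomial.eval₂_pow, Polynomial.eval₂_X, Polynomial.eval₂_C, hβ,
        sub_self]
    refine ⟨IntermediateField.adjoin K {β}, ⟨β, IntermediateField.mem_adjoin_simple_self K β⟩,
      IntermediateField.adjoin.finiteDimensional hint, ?_, ?_⟩
    · rw [IntermediateField.adjoin.finrank hint]
      have hdvd : minpoly K β ∣ Polynomial.X ^ 2 - Polynomial.C c := by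
        apply minpoly.dvd
        rw [map_sub, map_pow, Polynomial.aeval_X, Polynomial.aeval_C, hβ, sub_self]
      have := Polynomial.natDegree_le_of_dvd hdvd
        (Polynomial.monic_X_pow_sub_C _ (by norm_num)).ne_zero
      rwa [Polynomial.natDegree_X_pow_sub_C] at this
    · apply Subtype.ext
      exact hβ
  have hc : ∀ (L : IntermediateField K Ω) (k : ℕ),
      (g.map (algebraMap K L)).coeff k = algebraMap K L (g.coeff k) := fun L k =>
    Polynomial.coeff_map _ _
  have hFL : ∀ (L : IntermediateField K Ω) (x : K),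
      (F.toRingHom.comp (algebraMap L Ω)) (algebraMap K L x) =
        F (algebraMap K Ω x) := by
    intro L x
    rfl
  by_cases h1 : g.coeff 1 = 0
  · by_cases h2 : g.coeff 2 = 0
    · by_cases h3 : g.coeff 3 = 0
      · obtain ⟨L, d, hfin, hrank, hd2⟩ := key (g.coeff 4)
        refine ⟨L, F.toRingHom.comp (algebraMap L Ω), hfin, hrank,
          Seed.double d ?_ ?_ ?_ ?_⟩
        · rw [hc, h1, map_zero]
        · rw [hc, h2, map_zero]
        · rw [hc, h3, map_zero]
        · rw [hc, hd2]
      · obtain ⟨L, d, hfin, hrank, hd2⟩ := key 1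
        refine ⟨L, F.toRingHom.comp (algebraMap L Ω), hfin, hrank,
          Seed.cusp ?_ ?_ ?_⟩
        · rw [hc, h1, map_zero]
        · rw [hc, h2, map_zero]
        · rw [hc]
          exact (map_ne_zero _).mpr h3
    · obtain ⟨L, d, hfin, hrank, hd2⟩ := key (g.coeff 2)
      refine ⟨L, F.toRingHom.comp (algebraMap L Ω), hfin, hrank,
        Seed.node d ?_ ?_ ?_⟩
      · rw [hc, h1, map_zero]
      · rw [hc, hd2]
      · rintro rfl
        rw [zero_pow (by norm_num)] at hd2
        exact h2 ((map_eq_zero _).mp hd2.symm)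
  · -- `s = 2 ^ m`
    set c : ℕ → ℝ := fun k => ‖F (algebraMap K Ω (g.coeff k))‖ with hcdef
    have hc1 : 0 < c 1 := by
      rw [hcdef]
      simp only
      rw [norm_pos_iff]
      exact (map_ne_zero F).mpr ((map_ne_zero _).mpr h1)
    have hn2 : ‖(2 : PadicAlgCl 2)‖ = 1 / 2 := by
      have : Fact (Nat.Prime 2) := ⟨Nat.prime_two⟩
      have := PadicAlgCl.norm_extends (p := 2) (2 : ℚ_[2])
      rw [show ((2 : ℚ_[2]) : PadicAlgCl 2) = 2 from map_ofNat _ 2] at this
      rw [this]
      have := Padic.norm_p (p := 2)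
      norm_num at this ⊢
      exact this
    obtain ⟨m, hm⟩ : ∃ m : ℕ, 1 + c 2 + c 1 * c 3 + c 1 ^ 2 * c 4 < c 1 * 2 ^ m := by
      obtain ⟨m, hm⟩ := pow_unbounded_of_one_lt ((1 + c 2 + c 1 * c 3 + c 1 ^ 2 * c 4) / c 1)
        (by norm_num : (1 : ℝ) < 2)
      exact ⟨m, by rw [div_lt_iff₀ hc1] at hm; linarith⟩
    obtain ⟨L, w, hfin, hrank, hw2⟩ := key (g.eval (2 ^ m))
    refine ⟨L, F.toRingHom.comp (algebraMap L Ω), hfin, hrank,
      Seed.point (algebraMap K L (2 ^ m)) w ?_ ?_ ?_ ?_⟩
    · rw [hc]
      exact (map_ne_zero _).mpr h1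
    · exact (map_ne_zero _).mpr (pow_ne_zero m two_ne_zero)
    · rw [hw2, Polynomial.eval_map, Polynomial.eval₂_at_apply]
    · rw [hc, hc, hc, hc, ← map_mul (algebraMap K L), ← map_pow (algebraMap K L),
        ← map_mul (algebraMap K L), ← map_div₀ (algebraMap K L), hFL, hFL, hFL, hFL]
      rw [map_mul, map_mul, map_mul, map_mul, map_pow, map_pow, map_div₀, map_div₀, map_pow,
        map_pow, map_ofNat, map_ofNat, norm_mul, norm_mul, norm_pow, norm_div, norm_pow, hn2]
      have : c 1 / (1 / 2) ^ m = c 1 * 2 ^ m := by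
        rw [one_div, inv_pow, div_inv_eq_mul]
      change 1 + c 2 + c 1 * c 3 + c 1 ^ 2 * c 4 < c 1 / (1 / 2) ^ m
      rw [this]
      exact hm

/-- Over a field containing the point, a quadratic extension is enough. -/
theorem dense_quadratic {K : Type*} (Ω : Type*) [Field K] [Field Ω] [CharZero K] [CharZero Ω]
    [Algebra.IsAlgebraic ℚ Ω] [Algebra K Ω] [IsAlgClosed Ω] {r : ℕ}
    (P : MvPolynomial (Fin (r + 1)) K) (a : Fin (r + 1) → K) (h : IsTri P a) :
    ∃ L : IntermediateField K Ω, FiniteDimensional K L ∧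
      Module.finrank K L ≤ 2 ∧ CoverDense (map (algebraMap K L) P) := by
  obtain ⟨L, f, hfin, hrank, hs⟩ := exists_seed Ω (lastPoly P a)
  refine ⟨L, hfin, hrank, ?_⟩
  have : CharZero L := charZero_of_injective_algebraMap (algebraMap K L).injective
  refine dense_of_seed f (map (algebraMap K L) P) (fun j => algebraMap K L (a j)) ?_ ?_
  · exact (isTri_map_iff _ _ _).mpr h
  · rw [lastPoly_map]
    exact hs

theorem derivative_lastPoly {K : Type*} [Field K] {r : ℕ} (P : MvPolynomial (Fin (r + 1)) K)
    (a : Fin (r + 1) → K) :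
    Polynomial.derivative (lastPoly P a) = lastPoly (pderiv (Fin.last r) P) a := by
  induction P using MvPolynomial.induction_on with
  | C c => simp [lastPoly]
  | add p q hp hq =>
    rw [lastPoly, map_add, ← lastPoly, ← lastPoly, Polynomial.derivative_add, hp, hq, map_add,
      lastPoly, lastPoly, lastPoly, map_add]
  | mul_X p n hp =>
    rw [lastPoly, map_mul, ← lastPoly, Polynomial.derivative_mul, hp, aeval_X, Derivation.leibniz,
      lastPoly, lastPoly, lastPoly, map_add, smul_eq_mul, smul_eq_mul, map_mul, map_mul, aeval_X]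
    by_cases h : n = Fin.last r
    · subst h
      rw [if_pos rfl, pderiv_X_self, map_one]
      simp only [Polynomial.derivative_add, Polynomial.derivative_X, Polynomial.derivative_C]
      ring
    · rw [if_neg h, pderiv_X_of_ne h, map_zero, Polynomial.derivative_C]
      ring

theorem lastPoly_coeff_one {K : Type*} [Field K] {r : ℕ} (P : MvPolynomial (Fin (r + 1)) K)
    (a : Fin (r + 1) → K) : (lastPoly P a).coeff 1 = eval a (pderiv (Fin.last r) P) := by
  rw [← lastPoly_coeff_zero, ← derivative_lastPoly, Polynomial.coeff_derivative]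
  norm_num

/-- No extension is needed if the last polynomial is of degree two with a simple zero. -/
theorem dense_conic {K : Type*} (Ω : Type*) [Field K] [Field Ω] [CharZero K] [CharZero Ω]
    [Algebra.IsAlgebraic ℚ Ω] [Algebra K Ω] {r : ℕ}
    (P : MvPolynomial (Fin (r + 1)) K) (a : Fin (r + 1) → K) (h : IsTri P a)
    (h1 : eval a (pderiv (Fin.last r) P) ≠ 0)
    (h2 : degreeOf (Fin.last r) (truncate P a (Fin.last r)) ≤ 2) :
    CoverDense P := by
  let F : Ω →ₐ[ℚ] PadicAlgCl 2 := IsAlgClosed.lift
  have hd := natDegree_lastPoly_le P a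
  refine dense_of_seed (F.toRingHom.comp (algebraMap K Ω)) P a h (Seed.conic ?_ ?_ ?_)
  · rwa [lastPoly_coeff_one]
  · exact Polynomial.coeff_eq_zero_of_natDegree_lt (by omega)
  · exact Polynomial.coeff_eq_zero_of_natDegree_lt (by omega)

/-- The general statement. -/
theorem main {K Ω : Type*} [Field K] [Field Ω] [CharZero K] [CharZero Ω]
    [Algebra.IsAlgebraic ℚ Ω] [Algebra K Ω] [Algebra.IsAlgebraic K Ω] [IsAlgClosed Ω] {r : ℕ}
    (P : MvPolynomial (Fin (r + 1)) K) (a : Fin (r + 1) → Ω)
    (h : IsTri (map (algebraMap K Ω) P) a) :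
    (∃ L : IntermediateField K Ω, FiniteDimensional K L ∧
      IntermediateField.adjoin K (Set.range a) ≤ L ∧
      Module.finrank K L ≤ 2 * Module.finrank K (IntermediateField.adjoin K (Set.range a)) ∧
      CoverDense (map (algebraMap K L) P)) ∧
    (eval a (pderiv (Fin.last r) (map (algebraMap K Ω) P)) ≠ 0 →
      degreeOf (Fin.last r) (truncate (map (algebraMap K Ω) P) a (Fin.last r)) ≤ 2 →
      CoverDense (map (algebraMap K (IntermediateField.adjoin K (Set.range a))) P)) := by
  set K1 := IntermediateField.adjoin K (Set.range a) with hK1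
  have hmem : ∀ j, a j ∈ K1 := fun j => IntermediateField.subset_adjoin K _ ⟨j, rfl⟩
  set a1 : Fin (r + 1) → K1 := fun j => ⟨a j, hmem j⟩ with ha1
  have hfin1 : FiniteDimensional K K1 := by
    rw [hK1]
    have : Finite (Set.range a) := Set.finite_range a
    exact IntermediateField.finiteDimensional_adjoin fun x _ =>
      (Algebra.IsAlgebraic.isAlgebraic x).isIntegral
  have : CharZero K1 := charZero_of_injective_algebraMap (algebraMap K K1).injective
  have hmap : map (algebraMap K Ω) P = map (algebraMap K1 Ω) (map (algebraMap K K1) P) := by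
    rw [map_map, ← IsScalarTower.algebraMap_eq]
  have haa : a = fun j => algebraMap K1 Ω (a1 j) := rfl
  have h1 : IsTri (map (algebraMap K K1) P) a1 := by
    rw [← isTri_map_iff (algebraMap K1 Ω), ← hmap]
    exact h
  refine ⟨?_, fun hs hd => ?_⟩
  · obtain ⟨L, hL1, hL2, hL3⟩ := dense_quadratic Ω (map (algebraMap K K1) P) a1 h1
    refine ⟨L.restrictScalars K, ?_, ?_, ?_, ?_⟩
    · exact FiniteDimensional.trans K K1 L
    · intro x hx
      have := L.algebraMap_mem ⟨x, hx⟩
      exact this
    · have h3 := Module.finrank_mul_finrank K K1 L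
      change Module.finrank K L ≤ _
      rw [← h3]
      nlinarith [Nat.zero_le (Module.finrank K K1)]
    · rw [map_map, ← IsScalarTower.algebraMap_eq] at hL3
      exact hL3
  · refine dense_conic Ω (map (algebraMap K K1) P) a1 h1 ?_ ?_
    · rw [hmap, pderiv_map, haa, eval_map_eq] at hs
      intro h0
      exact hs (by rw [h0, map_zero])
    · rw [hmap] at hd
      rw [haa] at hd
      rwa [truncate_map, degreeOf_map_eq] at hd

end Pool.Agent.L0h9.Tri
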