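import Pool.Agent.L0h9.Tri.Induct

/-! The steps for quadratic polynomials, the one-variable case, and the induction. -/

namespace Pool.Agent.L0h9.Tri

open MvPolynomial Topology Filter Pool.Agent.H952R2.Sextic

/-- Zariski density of a family of infinite fibres over a dense set. -/
theorem zariski_cons {K M : Type*} [Field K] [Field M] [Algebra K M] {r : ℕ}
    (S : Set (Fin r → K))
    (hS : ∀ g : MvPolynomial (Fin r) M, (∀ x ∈ S, eval (fun j => algebraMap K M (x j)) g = 0) →
      g = 0) (T : (Fin r → K) → Set K) (hT : ∀ x ∈ S, (T x).Infinite)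
    (G : MvPolynomial (Fin (r + 1)) M)
    (hG : ∀ x ∈ S, ∀ s ∈ T x,
      eval (fun j => algebraMap K M ((Fin.cons s x : Fin (r + 1) → K) j)) G = 0) : G = 0 := by
  set g := finSuccEquiv M r G with hg
  have hcoef : ∀ k, g.coeff k = 0 := by
    intro k
    refine hS _ ?_
    intro x hx
    have h2 : Polynomial.map (eval (fun j => algebraMap K M (x j))) g = 0 := by
      apply Polynomial.eq_zero_of_infinite_isRoot
      refine ((hT x hx).image (algebraMap K M).injective.injOn).mono ?_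
      rintro _ ⟨s, hs, rfl⟩
      have h3 := hG x hx s hs
      have h4 : (fun j => algebraMap K M ((Fin.cons s x : Fin (r + 1) → K) j)) =
          (Fin.cons (algebraMap K M s) (fun j => algebraMap K M (x j)) : Fin (r + 1) → M) := by
        funext j
        refine Fin.cases ?_ (fun i => ?_) j <;> simp
      rw [h4, eval_eq_eval_mv_eval'] at h3
      exact h3
    have h5 := congrArg (fun p => Polynomial.coeff p k) h2
    simpa only [Polynomial.coeff_map, Polynomial.coeff_zero] using h5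
  have hg0 : g = 0 := Polynomial.ext fun k => by rw [hcoef k, Polynomial.coeff_zero]
  exact (finSuccEquiv M r).injective (by rw [map_zero]; exact hg0)

/-- Removing the zeros of `P`. -/
theorem infinite_ne {K : Type*} [NormedField K] {ε : ℝ} (f : Polynomial K) (hf : f ≠ 0)
    (h : ∀ δ : ℝ, 0 < δ → ∃ s w : K, s ≠ 0 ∧ ‖s‖ < δ ∧ w ^ 2 = f.eval s) (hε : 0 < ε) :
    {s : K | ‖s‖ < ε ∧ ∃ w : K, w ≠ 0 ∧ w ^ 2 = f.eval s}.Infinite := by
  have h3 : {s : K | ‖s‖ < ε ∧ ∃ w : K, w ^ 2 = f.eval s}.Infinite := by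
    apply infinite_of_small
    intro δ hδ
    obtain ⟨s, w, hs0, hs, hw⟩ := h (min δ ε) (lt_min hδ hε)
    exact ⟨s, ⟨lt_of_lt_of_le hs (min_le_right _ _), w, hw⟩, hs0,
      lt_of_lt_of_le hs (min_le_left _ _)⟩
  have h4 : {s : K | f.IsRoot s}.Finite := Polynomial.finite_setOfPred_isRoot hf
  refine (h3.sdiff h4).mono ?_
  rintro s ⟨⟨hs, w, hw⟩, hroot⟩
  refine ⟨hs, w, ?_, hw⟩
  rintro rfl
  apply hroot
  have h5 : Polynomial.eval s f = 0 := by
    rw [← hw]
    ring
  exact h5

/-- Small points on a conic `w² = u² + b s + c s²`. -/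
theorem conic_near {K : Type*} [NontriviallyNormedField K] (h20 : (2 : K) ≠ 0) {u b c : K}
    (hu : u ≠ 0) {δ : ℝ} (hδ : 0 < δ) :
    ∃ s w : K, s ≠ 0 ∧ ‖s‖ < δ ∧ w ^ 2 = u ^ 2 + b * s + c * s ^ 2 := by
  -- `s = (b - 2 u m) / (m² - c)` with `m` large
  have hlim : Tendsto (fun m : K => (b - 2 * u * m) / (m ^ 2 - c)) (Bornology.cobounded K)
      (𝓝 0) := by
    have hinv : Tendsto (fun m : K => m⁻¹) (Bornology.cobounded K) (𝓝 0) :=
      tendsto_inv₀_cobounded
    have h1 : Tendsto (fun m : K => (b * m⁻¹ ^ 2 - 2 * u * m⁻¹) / (1 - c * m⁻¹ ^ 2))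
        (Bornology.cobounded K) (𝓝 ((b * 0 ^ 2 - 2 * u * 0) / (1 - c * 0 ^ 2))) := by
      refine Tendsto.div ?_ ?_ (by norm_num)
      · exact (tendsto_const_nhds.mul (hinv.pow 2)).sub (tendsto_const_nhds.mul hinv)
      · exact tendsto_const_nhds.sub (tendsto_const_nhds.mul (hinv.pow 2))
    have h2 : ((b * 0 ^ 2 - 2 * u * 0) / (1 - c * 0 ^ 2) : K) = 0 := by ring
    rw [h2] at h1
    refine h1.congr' ?_
    filter_upwards [(tendsto_norm_cobounded_atTop).eventually_gt_atTop 0] with m hm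
    have hm0 : m ≠ 0 := norm_pos_iff.mp hm
    field_simp
  have e1 : ∀ᶠ m in Bornology.cobounded K, ‖(b - 2 * u * m) / (m ^ 2 - c)‖ < δ := by
    have := hlim.norm
    rw [norm_zero] at this
    exact this.eventually_lt_const hδ
  have e2 : ∀ᶠ m in Bornology.cobounded K, ‖b‖ / ‖2 * u‖ < ‖m‖ :=
    (tendsto_norm_cobounded_atTop).eventually_gt_atTop _
  have e3 : ∀ᶠ m in Bornology.cobounded K, 1 + ‖c‖ < ‖m‖ :=
    (tendsto_norm_cobounded_atTop).eventually_gt_atTop _
  obtain ⟨m, h1, h2, h3⟩ := (e1.and (e2.and e3)).exists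
  have hu2 : 0 < ‖2 * u‖ := norm_pos_iff.mpr (mul_ne_zero h20 hu)
  have hnum : b - 2 * u * m ≠ 0 := by
    intro h
    have : b = 2 * u * m := by linear_combination h
    rw [div_lt_iff₀ hu2, this, norm_mul] at h2
    linarith
  have hden : m ^ 2 - c ≠ 0 := by
    intro h
    have h4 : m ^ 2 = c := by linear_combination h
    have h5 : ‖m‖ ^ 2 = ‖c‖ := by rw [← norm_pow, h4]
    have := norm_nonneg c
    nlinarith
  refine ⟨(b - 2 * u * m) / (m ^ 2 - c), u + m * ((b - 2 * u * m) / (m ^ 2 - c)),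
    div_ne_zero hnum hden, h1, ?_⟩
  field_simp
  ring

variable {K : Type*} [NontriviallyNormedField K] [IsUltrametricDist K]
  {M : Type*} [Field M] [Algebra K M]

omit [IsUltrametricDist K] in
/-- The step for polynomials of degree at most two in the new variable. -/
theorem step2 (h20 : (2 : K) ≠ 0) {r : ℕ}
    (P : MvPolynomial (Fin (r + 1)) K) (hdeg : degreeOf 0 P ≤ 2)
    (hN : NearDense M ((finSuccEquiv K r P).coeff 0)) : NearDense M P := by
  intro ε hε G hG
  refine zariski_cons {x : Fin r → K | (∀ j, ‖x j‖ < ε) ∧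
    ∃ u : K, u ≠ 0 ∧ u ^ 2 = eval x ((finSuccEquiv K r P).coeff 0)}
    (fun g hg => hN ε hε g fun x hx hu => hg x ⟨hx, hu⟩)
    (fun x => {s : K | ‖s‖ < ε ∧ ∃ w : K, w ≠ 0 ∧
      w ^ 2 = (Polynomial.map (eval x) (finSuccEquiv K r P)).eval s}) ?_ G ?_
  · rintro x ⟨hx, u, hu, hux⟩
    have h4 := (natDegree_finSuccEquiv (R := K) P)
    have ev : ∀ s : K, (Polynomial.map (eval x) (finSuccEquiv K r P)).eval s =
        u ^ 2 + eval x ((finSuccEquiv K r P).coeff 1) * s +
          eval x ((finSuccEquiv K r P).coeff 2) * s ^ 2 := by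
      intro s
      rw [Polynomial.eval_eq_sum_range' (n := 3)
        (lt_of_le_of_lt Polynomial.natDegree_map_le (by rw [h4]; omega))]
      simp [Finset.sum_range_succ, hux]
    refine infinite_ne _ ?_ (fun δ hδ => ?_) hε
    · intro h
      have := congrArg (fun p => Polynomial.coeff p 0) h
      simp only [Polynomial.coeff_map, Polynomial.coeff_zero] at this
      rw [← hux] at this
      exact pow_ne_zero 2 hu this
    · obtain ⟨s, w, h1, h2, h3⟩ := conic_near (b := eval x ((finSuccEquiv K r P).coeff 1))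
        (c := eval x ((finSuccEquiv K r P).coeff 2)) h20 hu hδ
      exact ⟨s, w, h1, h2, by rw [ev, h3]⟩
  · rintro x ⟨hx, -⟩ s ⟨hs, w, hw0, hw⟩
    refine hG _ (fun j => ?_) ⟨w, hw0, ?_⟩
    · refine Fin.cases ?_ (fun i => ?_) j
      · simpa using hs
      · simpa using hx i
    · rw [eval_eq_eval_mv_eval', hw]

omit [IsUltrametricDist K] in
/-- One variable. -/
theorem base {M : Type*} [Field M] [Algebra K M] (P : MvPolynomial (Fin 1) K) (hP : P ≠ 0)
    (h : ∀ δ : ℝ, 0 < δ → ∃ s w : K, s ≠ 0 ∧ ‖s‖ < δ ∧ w ^ 2 = eval (fun _ => s) P) :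
    NearDense M P := by
  intro ε hε G hG
  have e0 : ∀ (s : K) (x : Fin 0 → K), (Fin.cons s x : Fin 1 → K) = fun _ => s := by
    intro s x
    funext j
    refine Fin.cases ?_ (fun i => i.elim0) j
    rw [Fin.cons_zero]
  refine zariski_cons (r := 0) Set.univ ?_
    (fun x => {s : K | ‖s‖ < ε ∧ ∃ w : K, w ≠ 0 ∧
      w ^ 2 = (Polynomial.map (eval x) (finSuccEquiv K 0 P)).eval s}) ?_ G ?_
  · intro g hg
    have h1 := hg 0 (Set.mem_univ _)
    rw [eq_C_of_isEmpty g] at h1 ⊢
    rw [eval_C] at h1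
    rw [h1, C_0]
  · intro x _
    refine infinite_ne _ ?_ (fun δ hδ => ?_) hε
    · intro h0
      apply hP
      have h1 : finSuccEquiv K 0 P = 0 := by
        ext1 k
        have := congrArg (fun p => Polynomial.coeff p k) h0
        simp only [Polynomial.coeff_map, Polynomial.coeff_zero] at this
        rw [eq_C_of_isEmpty ((finSuccEquiv K 0 P).coeff k)] at this ⊢
        rw [eval_C] at this
        rw [this, C_0, Polynomial.coeff_zero]
      exact (finSuccEquiv K 0).injective (by rw [h1, map_zero])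
    · obtain ⟨s, w, h1, h2, h3⟩ := h δ hδ
      refine ⟨s, w, h1, h2, ?_⟩
      rw [← eval_eq_eval_mv_eval', e0, h3]
  · rintro x - s ⟨hs, w, hw0, hw⟩
    refine hG _ (fun j => ?_) ⟨w, hw0, ?_⟩
    · rw [e0]; exact hs
    · rw [eval_eq_eval_mv_eval', hw]

/-- `P(x₀, …, x_r)` has degree at most two in `x₀`, or degree at most four and a nonzero derivative
with respect to `x₀` at the origin; and the same holds for `P(0, x₁, …, x_r)`, and so on. -/
def Good {K : Type*} [Field K] : (r : ℕ) → MvPolynomial (Fin (r + 1)) K → Prop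
  | 0, _ => True
  | r + 1, P => (degreeOf 0 P ≤ 2 ∨
      (degreeOf 0 P ≤ 4 ∧ eval 0 ((finSuccEquiv K (r + 1) P).coeff 1) ≠ 0)) ∧
      Good r ((finSuccEquiv K (r + 1) P).coeff 0)

theorem tail_eval_zero {K : Type*} [Field K] {r : ℕ} (P : MvPolynomial (Fin (r + 1)) K) (s : K)
    (x : Fin r → K) (hs : s = 0) :
    eval x ((finSuccEquiv K r P).coeff 0) = eval (Fin.cons s x : Fin (r + 1) → K) P := by
  rw [eval_eq_eval_mv_eval', hs, ← Polynomial.coeff_zero_eq_eval_zero, Polynomial.coeff_map]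

/-- **The density theorem near the origin.** -/
theorem nearDense_of_good (h20 : (2 : K) ≠ 0) (h2 : ‖(2 : K)‖ < 1) :
    ∀ (r : ℕ) (P : MvPolynomial (Fin (r + 1)) K), Good r P → eval 0 P = 0 →
      (∃ s : K, eval (fun j => if j = Fin.last r then s else 0) P ≠ 0) →
      (∀ δ : ℝ, 0 < δ → ∃ s w : K, s ≠ 0 ∧ ‖s‖ < δ ∧
        w ^ 2 = eval (fun j => if j = Fin.last r then s else 0) P) → NearDense M P := by
  intro r
  induction r with
  | zero =>
    intro P _ _ hne h
    have e0 : ∀ s : K, (fun j : Fin (0 + 1) => if j = Fin.last 0 then s else 0) = fun _ => s := by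
      intro s
      funext j
      rw [if_pos]
      exact Fin.fin_one_eq_zero j
    refine base P ?_ ?_
    · rintro rfl
      obtain ⟨s, hs⟩ := hne
      exact hs (map_zero _)
    · intro δ hδ
      obtain ⟨s, w, h1, h2, h3⟩ := h δ hδ
      exact ⟨s, w, h1, h2, by rw [h3, e0]⟩
  | succ r ih =>
    intro P hg hz hne h
    obtain ⟨hg1, hg2⟩ := hg
    have e1 : ∀ s : K, (fun j : Fin (r + 1 + 1) => if j = Fin.last (r + 1) then s else 0) =
        (Fin.cons 0 (fun j : Fin (r + 1) => if j = Fin.last r then s else 0) :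
          Fin (r + 1 + 1) → K) := by
      intro s
      funext j
      refine Fin.cases ?_ (fun i => ?_) j
      · rw [Fin.cons_zero, if_neg]
        exact (Fin.last_pos).ne
      · rw [Fin.cons_succ]
        congr 1
        rw [← Fin.succ_last, Fin.succ_inj]
    have e2 : ∀ s : K, eval (fun j : Fin (r + 1) => if j = Fin.last r then s else 0)
        ((finSuccEquiv K (r + 1) P).coeff 0) =
        eval (fun j : Fin (r + 1 + 1) => if j = Fin.last (r + 1) then s else 0) P := by
      intro s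
      rw [e1, tail_eval_zero P 0 _ rfl]
    have hz' : eval 0 ((finSuccEquiv K (r + 1) P).coeff 0) = 0 := by
      have : (Fin.cons 0 0 : Fin (r + 1 + 1) → K) = 0 := by
        funext j
        refine Fin.cases ?_ (fun i => ?_) j <;> simp
      rw [tail_eval_zero P 0 _ rfl, this, hz]
    have htail := ih ((finSuccEquiv K (r + 1) P).coeff 0) hg2 hz'
      (by
        obtain ⟨s, hs⟩ := hne
        exact ⟨s, by rw [e2]; exact hs⟩)
      (fun δ hδ => by
        obtain ⟨s, w, h1, h2, h3⟩ := h δ hδ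
        exact ⟨s, w, h1, h2, by rw [h3, e2]⟩)
    rcases hg1 with h4 | ⟨h4, h5⟩
    · exact step2 h20 P h4 htail
    · exact step h20 h2 P h4 hz h5 htail

end Pool.Agent.L0h9.Tri
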