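import Pool.Agent.L0h9.Tri.Transl

/-! Points near a zero of a polynomial of degree at most four in one variable, and fields of
algebraic numbers. -/

namespace Pool.Agent.L0h9.Tri

open MvPolynomial Topology Filter Pool.Agent.H952R2.Sextic

section one

variable {K : Type*} [NontriviallyNormedField K]

/-- `w² = c₁ s + c₂ s²`, `c₁ ≠ 0`. -/
theorem near_one_conic {c1 c2 : K} (hc : c1 ≠ 0) {δ : ℝ} (hδ : 0 < δ) :
    ∃ s w : K, s ≠ 0 ∧ ‖s‖ < δ ∧ w ^ 2 = c1 * s + c2 * s ^ 2 := by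
  -- `s = c₁ / (m² - c₂)`
  obtain ⟨m, hm⟩ : ∃ m : K, 1 + ‖c2‖ + ‖c1‖ / δ < ‖m‖ := NormedField.exists_lt_norm K _
  have h1 := norm_nonneg c2
  have h2 : 0 ≤ ‖c1‖ / δ := by positivity
  have hm1 : 1 < ‖m‖ := by linarith
  have hden : ‖c1‖ / δ < ‖m ^ 2 - c2‖ := by
    have h3 : ‖m ^ 2‖ - ‖c2‖ ≤ ‖m ^ 2 - c2‖ := norm_sub_norm_le _ _
    rw [norm_pow] at h3
    nlinarith
  have hden0 : m ^ 2 - c2 ≠ 0 := by
    rw [← norm_pos_iff]
    linarith
  refine ⟨c1 / (m ^ 2 - c2), m * (c1 / (m ^ 2 - c2)), div_ne_zero hc hden0, ?_, ?_⟩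
  · rw [norm_div, div_lt_iff₀ (norm_pos_iff.mpr hden0)]
    rw [div_lt_iff₀ hδ] at hden
    linarith
  · field_simp
    ring

/-- `w² = c₁ s + c₂ s² + c₃ s³ + c₄ s⁴`, `c₁ ≠ 0`, with a point near the origin. -/
theorem near_one_seed [IsUltrametricDist K] (h20 : (2 : K) ≠ 0) (h2 : ‖(2 : K)‖ < 1)
    {c1 c2 c3 c4 s0 w0 : K} (hc : c1 ≠ 0) (hs0 : s0 ≠ 0)
    (hw : w0 ^ 2 = c1 * s0 + c2 * s0 ^ 2 + c3 * s0 ^ 3 + c4 * s0 ^ 4)
    (hbig : 1 + ‖c2‖ + ‖c1 * c3‖ + ‖c1 ^ 2 * c4‖ < ‖c1 / s0‖) {δ : ℝ} (hδ : 0 < δ) :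
    ∃ s w : K, s ≠ 0 ∧ ‖s‖ < δ ∧ w ^ 2 = c1 * s + c2 * s ^ 2 + c3 * s ^ 3 + c4 * s ^ 4 := by
  have n1 := norm_nonneg c2
  have n2 := norm_nonneg (c1 * c3)
  have n3 := norm_nonneg (c1 ^ 2 * c4)
  have hY : (c1 * w0 / s0 ^ 2) ^ 2 = (c1 / s0) ^ 3 + c2 * (c1 / s0) ^ 2 + (c1 * c3) * (c1 / s0) +
      c1 ^ 2 * c4 := by
    have : (c1 * w0 / s0 ^ 2) ^ 2 = c1 ^ 2 * w0 ^ 2 / s0 ^ 4 := by
      field_simp
    rw [this, hw]
    field_simp
  obtain ⟨x, Y, h3, h4⟩ := dbl_large h20 h2 (R := 1 + ‖c2‖ + ‖c1 * c3‖ + ‖c1 ^ 2 * c4‖)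
    (by linarith) (by linarith) (by linarith) (by linarith) hbig hY (‖c1‖ / δ)
  have hcp : 0 < ‖c1‖ := norm_pos_iff.mpr hc
  have hxp : 0 < ‖x‖ := lt_trans (by positivity) h4
  have hx : x ≠ 0 := norm_pos_iff.mp hxp
  refine ⟨c1 / x, c1 * Y / x ^ 2, div_ne_zero hc hx, ?_, ?_⟩
  · rw [norm_div, div_lt_iff₀ hxp]
    rw [div_lt_iff₀ hδ] at h4
    linarith
  · have : (c1 * Y / x ^ 2) ^ 2 = c1 ^ 2 * Y ^ 2 / x ^ 4 := by
      field_simp
    rw [this, h3]
    field_simp

/-- `w² = c₂ s² + c₃ s³ + c₄ s⁴`, `c₂ = d² ≠ 0`. -/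
theorem near_one_node (h20 : (2 : K) ≠ 0) {d c3 c4 : K} (hd : d ≠ 0) {δ : ℝ} (hδ : 0 < δ) :
    ∃ s w : K, s ≠ 0 ∧ ‖s‖ < δ ∧ w ^ 2 = d ^ 2 * s ^ 2 + c3 * s ^ 3 + c4 * s ^ 4 := by
  obtain ⟨s, w, h1, h2, h3⟩ := conic_near (u := d) (b := c3) (c := c4) h20 hd hδ
  refine ⟨s, s * w, h1, h2, ?_⟩
  rw [mul_pow, h3]
  ring

/-- `w² = c₃ s³ + c₄ s⁴`, `c₃ ≠ 0`. -/
theorem near_one_cusp {c3 c4 : K} (hc : c3 ≠ 0) {δ : ℝ} (hδ : 0 < δ) :
    ∃ s w : K, s ≠ 0 ∧ ‖s‖ < δ ∧ w ^ 2 = c3 * s ^ 3 + c4 * s ^ 4 := by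
  obtain ⟨s, w, h1, h2, h3⟩ := near_one_conic (c2 := c4) hc hδ
  refine ⟨s, s * w, h1, h2, ?_⟩
  rw [mul_pow, h3]
  ring

/-- `w² = d² s⁴`. -/
theorem near_one_double {d : K} {δ : ℝ} (hδ : 0 < δ) :
    ∃ s w : K, s ≠ 0 ∧ ‖s‖ < δ ∧ w ^ 2 = d ^ 2 * s ^ 4 := by
  obtain ⟨s, hs, hs'⟩ := NormedField.exists_norm_lt K hδ
  exact ⟨s, d * s ^ 2, norm_pos_iff.mp hs, hs', by ring⟩

end one

/-- The coefficients of `P(a₀, …, a_{r-1}, a_r + s)` as a polynomial in `s`. -/
noncomputable def lastPoly {K : Type*} [Field K] {r : ℕ} (P : MvPolynomial (Fin (r + 1)) K)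
    (a : Fin (r + 1) → K) : Polynomial K :=
  aeval (fun j => if j = Fin.last r then Polynomial.X + Polynomial.C (a j) else
    Polynomial.C (a j)) P

theorem lastPoly_eval {K : Type*} [Field K] {r : ℕ} (P : MvPolynomial (Fin (r + 1)) K)
    (a : Fin (r + 1) → K) (s : K) :
    (lastPoly P a).eval s =
      eval (fun j => if j = Fin.last r then s else 0) (shift a P) := by
  rw [eval_shift, lastPoly]
  have h : ((Polynomial.aeval s : Polynomial K →ₐ[K] K).comp
      (aeval (fun j => if j = Fin.last r then Polynomial.X + Polynomial.C (a j) else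
        Polynomial.C (a j)))) =
      (aeval (fun j => (if j = Fin.last r then s else 0) + a j) :
        MvPolynomial (Fin (r + 1)) K →ₐ[K] K) := by
    apply MvPolynomial.algHom_ext
    intro j
    rw [AlgHom.comp_apply, aeval_X, aeval_X]
    by_cases hj : j = Fin.last r
    · simp [hj]
    · simp [hj]
  have h1 := congrArg (fun φ => φ P) h
  simp only [AlgHom.comp_apply, Polynomial.coe_aeval_eq_eval] at h1
  rw [h1, aeval_eq_eval]

/-- The conditions on `(P, a)`. -/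
structure IsTri {K : Type*} [Field K] {r : ℕ} (P : MvPolynomial (Fin (r + 1)) K)
    (a : Fin (r + 1) → K) : Prop where
  zero : eval a P = 0
  degree : ∀ i, degreeOf i (truncate P a i) ≤ 4
  simple : ∀ i, i < Fin.last r → 2 < degreeOf i (truncate P a i) → eval a (pderiv i P) ≠ 0
  last : truncate P a (Fin.last r) ≠ 0

theorem lastPoly_eq {K : Type*} [Field K] {r : ℕ} (P : MvPolynomial (Fin (r + 1)) K)
    (a : Fin (r + 1) → K) : lastPoly P a =
      aeval (fun j => if j = Fin.last r then Polynomial.X + Polynomial.C (a j) else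
        Polynomial.C (a j)) (truncate P a (Fin.last r)) := by
  have h : ((aeval (fun j => if j = Fin.last r then Polynomial.X + Polynomial.C (a j) else
      Polynomial.C (a j)) : MvPolynomial (Fin (r + 1)) K →ₐ[K] Polynomial K).comp
      (aeval (fun j => if j < Fin.last r then C (a j) else X j))) =
      aeval (fun j => if j = Fin.last r then Polynomial.X + Polynomial.C (a j) else
        Polynomial.C (a j)) := by
    apply MvPolynomial.algHom_ext
    intro j
    rw [AlgHom.comp_apply, aeval_X, aeval_X]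
    by_cases hj : j = Fin.last r
    · rw [if_neg (by rw [hj]; exact lt_irrefl _), aeval_X]
    · rw [if_pos (lt_of_le_of_ne (Fin.le_last j) hj), algHom_C, if_neg hj]
      rfl
  have h1 := congrArg (fun φ => φ P) h
  simp only [AlgHom.comp_apply] at h1
  rw [lastPoly, truncate, h1]

/-- `P(a₀, …, a_{r-1}, x_r)` is the polynomial `lastPoly (x_r - a_r)`. -/
theorem truncate_last_eq {K : Type*} [Field K] {r : ℕ} (P : MvPolynomial (Fin (r + 1)) K)
    (a : Fin (r + 1) → K) : truncate P a (Fin.last r) =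
      Polynomial.aeval (X (Fin.last r) - C (a (Fin.last r))) (lastPoly P a) := by
  have h : (((Polynomial.aeval (X (Fin.last r) - C (a (Fin.last r)) :
      MvPolynomial (Fin (r + 1)) K)) : Polynomial K →ₐ[K] MvPolynomial (Fin (r + 1)) K).comp
      (aeval (fun j => if j = Fin.last r then Polynomial.X + Polynomial.C (a j) else
        Polynomial.C (a j)))) =
      (aeval (fun j => if j < Fin.last r then C (a j) else X j) :
        MvPolynomial (Fin (r + 1)) K →ₐ[K] MvPolynomial (Fin (r + 1)) K) := by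
    apply MvPolynomial.algHom_ext
    intro j
    rw [AlgHom.comp_apply, aeval_X, aeval_X]
    by_cases hj : j = Fin.last r
    · subst hj
      rw [if_pos rfl, if_neg (lt_irrefl _), map_add, Polynomial.aeval_X, Polynomial.aeval_C]
      rw [algebraMap_eq]
      ring
    · rw [if_pos (lt_of_le_of_ne (Fin.le_last j) hj), if_neg hj, Polynomial.aeval_C]
      rfl
  have h1 := congrArg (fun φ => φ P) h
  simp only [AlgHom.comp_apply] at h1
  rw [lastPoly, truncate, h1]

theorem IsTri.lastPoly_ne {K : Type*} [Field K] {r : ℕ} {P : MvPolynomial (Fin (r + 1)) K}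
    {a : Fin (r + 1) → K} (h : IsTri P a) : lastPoly P a ≠ 0 := by
  intro h0
  apply h.last
  rw [truncate_last_eq, h0, map_zero]

theorem natDegree_lastPoly_le {K : Type*} [Field K] {r : ℕ} (P : MvPolynomial (Fin (r + 1)) K)
    (a : Fin (r + 1) → K) :
    (lastPoly P a).natDegree ≤ degreeOf (Fin.last r) (truncate P a (Fin.last r)) := by
  classical
  rw [lastPoly_eq, aeval_def, eval₂_eq']
  refine Polynomial.natDegree_sum_le_of_forall_le _ _ fun m hm => ?_
  refine (Polynomial.natDegree_mul_le).trans ?_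
  have h1 : (algebraMap K (Polynomial K) (coeff m (truncate P a (Fin.last r)))).natDegree = 0 := by
    rw [Polynomial.algebraMap_eq, Polynomial.natDegree_C]
  rw [h1, zero_add]
  refine (Polynomial.natDegree_prod_le _ _).trans ?_
  have h2 : ∀ j : Fin (r + 1), ((if j = Fin.last r then Polynomial.X + Polynomial.C (a j) else
      Polynomial.C (a j)) ^ m j : Polynomial K).natDegree ≤
      if j = Fin.last r then m (Fin.last r) else 0 := by
    intro j
    refine (Polynomial.natDegree_pow_le).trans ?_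
    by_cases h : j = Fin.last r
    · rw [if_pos h, if_pos h, h, Polynomial.natDegree_X_add_C, mul_one]
    · rw [if_neg h, if_neg h, Polynomial.natDegree_C, mul_zero]
  refine (Finset.sum_le_sum fun j _ => h2 j).trans ?_
  rw [Finset.sum_ite_eq' Finset.univ (Fin.last r), if_pos (Finset.mem_univ _)]
  exact monomial_le_degreeOf _ hm

theorem lastPoly_coeff_zero {K : Type*} [Field K] {r : ℕ} (P : MvPolynomial (Fin (r + 1)) K)
    (a : Fin (r + 1) → K) : (lastPoly P a).coeff 0 = eval a P := by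
  rw [Polynomial.coeff_zero_eq_eval_zero, lastPoly_eval, eval_shift]
  congr 2
  funext j
  simp

theorem lastPoly_expand {K : Type*} [Field K] {r : ℕ} {P : MvPolynomial (Fin (r + 1)) K}
    {a : Fin (r + 1) → K} (h : IsTri P a) (s : K) : (lastPoly P a).eval s =
      (lastPoly P a).coeff 1 * s + (lastPoly P a).coeff 2 * s ^ 2 +
      (lastPoly P a).coeff 3 * s ^ 3 + (lastPoly P a).coeff 4 * s ^ 4 := by
  rw [Polynomial.eval_eq_sum_range' (n := 5)
    (lt_of_le_of_lt ((natDegree_lastPoly_le P a).trans (h.degree _)) (by norm_num))]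
  simp only [Finset.sum_range_succ, Finset.sum_range_zero, zero_add, pow_zero, mul_one, pow_one]
  rw [lastPoly_coeff_zero, h.zero, zero_add]

/-- The condition on the last polynomial, in a field with a map `f` to the `2`-adic numbers. -/
inductive Seed {K : Type*} [Field K] (f : K →+* PadicAlgCl 2) (g : Polynomial K) : Prop where
  | conic (h1 : g.coeff 1 ≠ 0) (h3 : g.coeff 3 = 0) (h4 : g.coeff 4 = 0)
  | point (s w : K) (h1 : g.coeff 1 ≠ 0) (hs : s ≠ 0) (hw : w ^ 2 = g.eval s)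
      (hb : 1 + ‖f (g.coeff 2)‖ + ‖f (g.coeff 1 * g.coeff 3)‖ +
        ‖f (g.coeff 1 ^ 2 * g.coeff 4)‖ < ‖f (g.coeff 1 / s)‖)
  | node (d : K) (h1 : g.coeff 1 = 0) (h2 : g.coeff 2 = d ^ 2) (hd : d ≠ 0)
  | cusp (h1 : g.coeff 1 = 0) (h2 : g.coeff 2 = 0) (h3 : g.coeff 3 ≠ 0)
  | double (d : K) (h1 : g.coeff 1 = 0) (h2 : g.coeff 2 = 0) (h3 : g.coeff 3 = 0)
      (h4 : g.coeff 4 = d ^ 2)

/-- **The density theorem for fields of algebraic numbers.** -/
theorem dense_field {K : Type*} [Field K] [CharZero K] (f : K →+* PadicAlgCl 2) {M : Type*}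
    [Field M] [Algebra K M] {r : ℕ} (P : MvPolynomial (Fin (r + 1)) K) (a : Fin (r + 1) → K)
    (h : IsTri P a) (hseed : Seed f (lastPoly P a)) (G : MvPolynomial (Fin (r + 1)) M)
    (hG : ∀ x : Fin (r + 1) → K, (∃ w : K, w ≠ 0 ∧ w ^ 2 = eval x P) →
      eval (fun j => algebraMap K M (x j)) G = 0) : G = 0 := by
  have : Fact (Nat.Prime 2) := ⟨Nat.prime_two⟩
  let inst1 : NormedField K := NormedField.induced K (PadicAlgCl 2) f f.injective
  have hnorm : ∀ x : K, ‖x‖ = ‖f x‖ := fun x => rfl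
  have h2n : ‖(2 : K)‖ = 1 / 2 := by
    rw [hnorm, map_ofNat]
    have := PadicAlgCl.norm_extends (p := 2) (2 : ℚ_[2])
    rw [show ((2 : ℚ_[2]) : PadicAlgCl 2) = 2 from map_ofNat _ 2] at this
    rw [this]
    have := Padic.norm_p (p := 2)
    norm_num at this ⊢
    exact this
  let inst2 : NontriviallyNormedField K :=
    { inst1 with non_trivial := ⟨1 / 2, by rw [norm_div, h2n, norm_one]; norm_num⟩ }
  have : IsUltrametricDist K :=
    IsUltrametricDist.isUltrametricDist_of_forall_norm_add_le_max_norm (fun x y => by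
      rw [hnorm, hnorm, hnorm, map_add]
      exact PadicAlgCl.isNonarchimedean 2 _ _)
  have h20 : (2 : K) ≠ 0 := two_ne_zero
  have h2 : ‖(2 : K)‖ < 1 := by rw [h2n]; norm_num
  have hexp := lastPoly_expand h
  -- points on the last curve
  have hnear : ∀ δ : ℝ, 0 < δ → ∃ s w : K, s ≠ 0 ∧ ‖s‖ < δ ∧
      w ^ 2 = eval (fun j => if j = Fin.last r then s else 0) (shift a P) := by
    intro δ hδ
    suffices hs : ∃ s w : K, s ≠ 0 ∧ ‖s‖ < δ ∧ w ^ 2 = (lastPoly P a).coeff 1 * s +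
        (lastPoly P a).coeff 2 * s ^ 2 + (lastPoly P a).coeff 3 * s ^ 3 +
        (lastPoly P a).coeff 4 * s ^ 4 by
      obtain ⟨s, w, h1, h2, h3⟩ := hs
      exact ⟨s, w, h1, h2, by rw [h3, ← hexp, lastPoly_eval]⟩
    rcases hseed with ⟨h1, h3, h4⟩ | ⟨s, w, h1, hs, hw, hb⟩ | ⟨d, h1, h2, hd⟩ | ⟨h1, h2, h3⟩ |
      ⟨d, h1, h2, h3, h4⟩
    · obtain ⟨s, w, h5, h6, h7⟩ := near_one_conic (c2 := (lastPoly P a).coeff 2) h1 hδ
      exact ⟨s, w, h5, h6, by rw [h7, h3, h4]; ring⟩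
    · rw [hexp] at hw
      exact near_one_seed h20 h2 h1 hs hw hb hδ
    · obtain ⟨s, w, h5, h6, h7⟩ := near_one_node (c3 := (lastPoly P a).coeff 3)
        (c4 := (lastPoly P a).coeff 4) h20 hd hδ
      exact ⟨s, w, h5, h6, by rw [h7, h1, h2]; ring⟩
    · obtain ⟨s, w, h5, h6, h7⟩ := near_one_cusp (c4 := (lastPoly P a).coeff 4) h3 hδ
      exact ⟨s, w, h5, h6, by rw [h7, h1, h2]; ring⟩
    · obtain ⟨s, w, h5, h6, h7⟩ := near_one_double (d := d) hδ
      exact ⟨s, w, h5, h6, by rw [h7, h1, h2, h3, h4]; ring⟩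
  have hz : eval 0 (shift a P) = 0 := by
    rw [eval_shift, ← h.zero]
    congr 2
    funext j
    simp
  have hne : ∃ s : K, eval (fun j => if j = Fin.last r then s else 0) (shift a P) ≠ 0 := by
    by_contra hcon
    push Not at hcon
    apply h.lastPoly_ne
    apply Polynomial.funext
    intro s
    rw [lastPoly_eval, hcon s, Polynomial.eval_zero]
  have hmain := nearDense_of_good (M := M) h20 h2 r (shift a P)
    (good_shift P a h.degree h.simple) hz hne hnear
  -- translate back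
  set G' : MvPolynomial (Fin (r + 1)) M := shift (fun j => algebraMap K M (a j)) G with hG'
  have hG0 : G' = 0 := by
    refine hmain 1 one_pos G' ?_
    rintro x - ⟨w, hw0, hw⟩
    rw [hG', eval_shift]
    rw [eval_shift] at hw
    have := hG (fun j => x j + a j) ⟨w, hw0, hw⟩
    rw [← this]
    congr 2
    funext j
    rw [map_add]
  -- `shift` is injective
  have hinf : Infinite M := by
    have : CharZero M := charZero_of_injective_algebraMap (algebraMap K M).injective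
    infer_instance
  apply MvPolynomial.funext
  intro y
  have h3 : eval (fun j => y j - algebraMap K M (a j)) G' = 0 := by rw [hG0, map_zero]
  rw [hG', eval_shift] at h3
  rw [map_zero, ← h3]
  congr 2
  funext j
  ring

end Pool.Agent.L0h9.Tri
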