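import Pool.Agent.L0h9.Tri.Local

/-! The induction on the number of variables. -/

namespace Pool.Agent.L0h9.Tri

open MvPolynomial Topology Filter Pool.Agent.H952R2.Sextic

/-- The points `x` near the origin at which `P` takes a nonzero square value are Zariski dense. -/
def NearDense {K : Type*} [NormedField K] (M : Type*) [Field M] [Algebra K M] {r : ℕ}
    (P : MvPolynomial (Fin r) K) : Prop :=
  ∀ ε : ℝ, 0 < ε → ∀ G : MvPolynomial (Fin r) M,
    (∀ x : Fin r → K, (∀ j, ‖x j‖ < ε) → (∃ w : K, w ≠ 0 ∧ w ^ 2 = eval x P) →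
      eval (fun j => algebraMap K M (x j)) G = 0) → G = 0

theorem infinite_of_small {K : Type*} [NormedField K] (S : Set K)
    (h : ∀ ε : ℝ, 0 < ε → ∃ s ∈ S, s ≠ 0 ∧ ‖s‖ < ε) : S.Infinite := by
  intro hfin
  have hfin' : (S \ {0}).Finite := hfin.subset Set.sdiff_subset
  obtain ⟨s0, hs0, hs0', -⟩ := h 1 one_pos
  obtain ⟨m, hm, hmin⟩ := hfin'.exists_minimalFor (fun x => ‖x‖) _ ⟨s0, hs0, hs0'⟩
  obtain ⟨s, hs, hs', hlt⟩ := h ‖m‖ (norm_pos_iff.mpr hm.2)
  exact absurd hlt (not_lt.mpr (hmin (j := s) ⟨hs, hs'⟩ hlt.le))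

variable {K : Type*} [NontriviallyNormedField K] [IsUltrametricDist K]
  {M : Type*} [Field M] [Algebra K M]

theorem eval_cons {R : Type*} [CommRing R] {r : ℕ} (P : MvPolynomial (Fin (r + 1)) R)
    (hdeg : degreeOf 0 P ≤ 4) (x : Fin r → R) (s : R) :
    eval (Fin.cons s x : Fin (r + 1) → R) P =
      eval x ((finSuccEquiv R r P).coeff 0) + eval x ((finSuccEquiv R r P).coeff 1) * s +
      eval x ((finSuccEquiv R r P).coeff 2) * s ^ 2 +
      eval x ((finSuccEquiv R r P).coeff 3) * s ^ 3 +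
      eval x ((finSuccEquiv R r P).coeff 4) * s ^ 4 := by
  rw [eval_eq_eval_mv_eval', Polynomial.eval_eq_sum_range' (n := 5)
    (lt_of_le_of_lt Polynomial.natDegree_map_le (by rw [natDegree_finSuccEquiv]; omega))]
  simp [Finset.sum_range_succ]

omit [IsUltrametricDist K] in
theorem eval_zero_coeff_zero {r : ℕ} (P : MvPolynomial (Fin (r + 1)) K)
    (hdeg : degreeOf 0 P ≤ 4) : eval 0 ((finSuccEquiv K r P).coeff 0) = eval 0 P := by
  have h := eval_cons P hdeg 0 0
  have h0 : (Fin.cons 0 0 : Fin (r + 1) → K) = 0 := by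
    funext j
    refine Fin.cases ?_ (fun i => ?_) j <;> simp
  rw [h0] at h
  rw [h]
  ring

theorem step (h20 : (2 : K) ≠ 0) (h2 : ‖(2 : K)‖ < 1) {r : ℕ}
    (P : MvPolynomial (Fin (r + 1)) K) (hdeg : degreeOf 0 P ≤ 4) (hz : eval 0 P = 0)
    (hd : eval 0 ((finSuccEquiv K r P).coeff 1) ≠ 0)
    (hN : NearDense M ((finSuccEquiv K r P).coeff 0)) : NearDense M P := by
  have h40 : (4 : K) ≠ 0 := by
    have : (4 : K) = 2 * 2 := by norm_num
    rw [this]; exact mul_ne_zero h20 h20
  set q : ℕ → MvPolynomial (Fin r) K := fun k => (finSuccEquiv K r P).coeff k with hq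
  have hz0 : eval 0 (q 0) = 0 := by rw [hq]; simp only; rw [eval_zero_coeff_zero P hdeg, hz]
  have ev : ∀ (x : Fin r → K) (s : K), eval (Fin.cons s x : Fin (r + 1) → K) P =
      eval x (q 0) + eval x (q 1) * s + eval x (q 2) * s ^ 2 + eval x (q 3) * s ^ 3 +
      eval x (q 4) * s ^ 4 := fun x s => eval_cons P hdeg x s
  set B : MvPolynomial (Fin r) K := q 1 * q 3 - C 4 * q 0 * q 4 with hB
  set C' : MvPolynomial (Fin r) K := q 1 ^ 2 * q 4 + q 0 * q 3 ^ 2 - C 4 * q 0 * q 2 * q 4 with hC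
  have cont : ∀ p : MvPolynomial (Fin r) K, Continuous fun t => ‖eval t p‖ := fun p =>
    (MvPolynomial.continuous_eval p).norm
  set R : ℝ := 1 + ‖eval 0 (q 2)‖ + ‖eval 0 B‖ + ‖eval 0 C'‖ with hR
  have hR1 : 1 ≤ R := by
    have := norm_nonneg (eval 0 (q 2)); have := norm_nonneg (eval 0 B)
    have := norm_nonneg (eval 0 C'); linarith
  have near : ∀ p : MvPolynomial (Fin r) K, ‖eval 0 p‖ < R → ∀ᶠ t in 𝓝 0, ‖eval t p‖ < R :=
    fun p hp => (cont p).continuousAt.eventually_lt continuousAt_const hp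
  have nA : ∀ᶠ t in 𝓝 0, ‖eval t (q 2)‖ < R := near _ (by
    have := norm_nonneg (eval 0 B); have := norm_nonneg (eval 0 C'); linarith)
  have nB : ∀ᶠ t in 𝓝 0, ‖eval t B‖ < R := near _ (by
    have := norm_nonneg (eval 0 (q 2)); have := norm_nonneg (eval 0 C'); linarith)
  have nC : ∀ᶠ t in 𝓝 0, ‖eval t C'‖ < R := near _ (by
    have := norm_nonneg (eval 0 (q 2)); have := norm_nonneg (eval 0 B); linarith)
  have nQ : ∀ᶠ t in 𝓝 (0 : Fin r → K), R * ‖eval t (C 4 * q 0)‖ < ‖eval t (q 1 ^ 2)‖ := by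
    refine ContinuousAt.eventually_lt (continuousAt_const.mul (cont _).continuousAt)
      (cont _).continuousAt ?_
    have hd' : eval 0 (q 1) ≠ 0 := hd
    rw [map_mul, hz0, mul_zero, norm_zero, mul_zero, map_pow, norm_pos_iff]
    exact pow_ne_zero 2 hd'
  obtain ⟨η, hη, hball⟩ := Metric.eventually_nhds_iff.mp (nA.and (nB.and (nC.and nQ)))
  intro ε hε G hG
  -- infinitely many `s`
  have hinf : ∀ x : Fin r → K, (∀ j, ‖x j‖ < min η ε) → (∃ u : K, u ≠ 0 ∧ u ^ 2 = eval x (q 0)) →
      {s : K | ‖s‖ < ε ∧ ∃ w : K, w ≠ 0 ∧ w ^ 2 = eval (Fin.cons s x : Fin (r + 1) → K) P}.Infinite := by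
    rintro x hx ⟨u, hu, hux⟩
    have hdist : dist x 0 < η := (dist_pi_lt_iff hη).mpr fun i => by
      rw [Pi.zero_apply, dist_zero_right]
      exact lt_of_lt_of_le (hx i) (min_le_left _ _)
    obtain ⟨gA, gB, gC, gQ⟩ := hball hdist
    have hbig : R < ‖eval x (q 1) ^ 2 / (4 * u ^ 2) - eval x (q 2)‖ := by
      have h1 : R < ‖eval x (q 1) ^ 2 / (4 * u ^ 2)‖ := by
        rw [norm_div, lt_div_iff₀ (norm_pos_iff.mpr (mul_ne_zero h40 (pow_ne_zero 2 hu)))]
        rw [hux]
        simpa using gQ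
      rw [sub_eq_add_neg, norm_add_left (by rw [norm_neg]; exact gA.trans h1)]
      exact h1
    have hqn := fun (δ : ℝ) (hδ : 0 < δ) => quartic_near (q3 := eval x (q 3)) (q4 := eval x (q 4))
      h20 h2 hu hR1 gA.le (by rw [hux]; simpa [hB] using gB.le)
        (by rw [hux]; simpa [hC] using gC.le) hbig hδ
    have h3 : {s : K | ‖s‖ < ε ∧ ∃ w : K, w ^ 2 = eval (Fin.cons s x : Fin (r + 1) → K) P}.Infinite := by
      apply infinite_of_small
      intro δ hδ
      obtain ⟨s, w, hs0, hs, hw⟩ := hqn (min δ ε) (lt_min hδ hε)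
      refine ⟨s, ⟨lt_of_lt_of_le hs (min_le_right _ _), w, ?_⟩, hs0,
        lt_of_lt_of_le hs (min_le_left _ _)⟩
      rw [ev, hw, hux]
    -- remove the zeros of the quartic
    set f : Polynomial K := Polynomial.map (eval x) (finSuccEquiv K r P) with hf
    have hf0 : f ≠ 0 := by
      intro h
      have h5 := congrArg (fun p => Polynomial.coeff p 0) h
      simp only [hf, Polynomial.coeff_map, Polynomial.coeff_zero] at h5
      have h6 : eval x (q 0) = 0 := h5
      rw [← hux] at h6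
      exact pow_ne_zero 2 hu h6
    have h4 : {s : K | f.IsRoot s}.Finite := Polynomial.finite_setOfPred_isRoot hf0
    refine (h3.sdiff h4).mono ?_
    rintro s ⟨⟨hs, w, hw⟩, hroot⟩
    refine ⟨hs, w, ?_, hw⟩
    rintro rfl
    apply hroot
    have h5 : Polynomial.eval s f = 0 := by
      rw [hf, ← eval_eq_eval_mv_eval', ← hw]
      ring
    exact h5
  -- the coefficients of `G`
  set g := finSuccEquiv M r G with hg
  have hcoef : ∀ k, g.coeff k = 0 := by
    intro k
    refine hN (min η ε) (lt_min hη hε) _ ?_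
    intro x hx hxu
    have h1 := hinf x hx hxu
    have h2 : Polynomial.map (eval (fun j => algebraMap K M (x j))) g = 0 := by
      apply Polynomial.eq_zero_of_infinite_isRoot
      refine (h1.image (algebraMap K M).injective.injOn).mono ?_
      rintro _ ⟨s, ⟨hs, hw⟩, rfl⟩
      have h3 := hG (Fin.cons s x) (by
        intro j
        refine Fin.cases ?_ (fun i => ?_) j
        · simpa using hs
        · simpa using lt_of_lt_of_le (hx i) (min_le_right _ _)) hw
      have h4 : (fun j => algebraMap K M ((Fin.cons s x : Fin (r + 1) → K) j)) =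
          (Fin.cons (algebraMap K M s) (fun j => algebraMap K M (x j)) : Fin (r + 1) → M) := by
        funext j
        refine Fin.cases ?_ (fun i => ?_) j <;> simp
      rw [h4, eval_eq_eval_mv_eval'] at h3
      exact h3
    have h5 := congrArg (fun p => Polynomial.coeff p k) h2
    simpa only [Polynomial.coeff_map, Polynomial.coeff_zero] using h5
  have hg0 : g = 0 := Polynomial.ext fun k => by rw [hcoef k, Polynomial.coeff_zero]
  exact (finSuccEquiv M r).injective (by rw [map_zero]; exact hg0)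

end Pool.Agent.L0h9.Tri
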