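import Pool.Agent.H952R2.Sextic.TwoAdic

/-! Small solutions of `w² = u² + q₁s + q₂s² + q₃s³ + q₄s⁴`, for `u` small and `q₁` not small. -/

namespace Pool.Agent.L0h9.Tri

open Pool.Agent.H952R2.Sextic

variable {K : Type*} [NormedField K] [IsUltrametricDist K]

/-- Doubling multiplies the norm of `x` by `1 / ‖4‖`. -/
theorem dbl_step' {A B C x Y : K} {R : ℝ} (h20 : (2 : K) ≠ 0) (h2 : ‖(2 : K)‖ < 1) (hR : 1 ≤ R)
    (hA : ‖A‖ ≤ R) (hB : ‖B‖ ≤ R) (hC : ‖C‖ ≤ R)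
    (hx : R < ‖x‖) (hY : Y ^ 2 = x ^ 3 + A * x ^ 2 + B * x + C) :
    ∃ x' Y' : K, Y' ^ 2 = x' ^ 3 + A * x' ^ 2 + B * x' + C ∧ ‖x'‖ * ‖(4 : K)‖ = ‖x‖ := by
  have hx1 : 1 < ‖x‖ := lt_of_le_of_lt hR hx
  have hx0 : 0 < ‖x‖ := by linarith
  have hYn : ‖Y‖ ^ 2 = ‖x‖ ^ 3 := by rw [← norm_pow, hY, norm_cubic hR hA hB hC hx]
  have hY0 : Y ≠ 0 := by
    rintro rfl
    rw [norm_zero] at hYn
    have := pow_pos hx0 3
    rw [← hYn] at this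
    simp at this
  have hnum : ‖x ^ 4 + (-(2 * B * x ^ 2) - 8 * C * x + B ^ 2 - 4 * A * C)‖ = ‖x‖ ^ 4 := by
    have h4 : ‖(4 : K)‖ ≤ 1 := by
      have : (4 : K) = 2 * 2 := by norm_num
      rw [this, norm_mul]; nlinarith [norm_nonneg (2 : K)]
    have h8 : ‖(8 : K)‖ ≤ 1 := by
      have : (8 : K) = 2 * 4 := by norm_num
      rw [this, norm_mul]; nlinarith [norm_nonneg (2 : K), norm_nonneg (4 : K)]
    have hx2 : 0 < ‖x‖ ^ 2 := pow_pos hx0 2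
    have hx34 : ‖x‖ ^ 3 < ‖x‖ ^ 4 := pow_lt_pow_right₀ hx1 (by norm_num)
    have hx24 : ‖x‖ ^ 2 < ‖x‖ ^ 4 := pow_lt_pow_right₀ hx1 (by norm_num)
    have e1 : ‖-(2 * B * x ^ 2)‖ < ‖x‖ ^ 4 := by
      rw [norm_neg, norm_mul, norm_mul, norm_pow]
      have : ‖(2 : K)‖ * ‖B‖ ≤ ‖x‖ := by
        nlinarith [norm_nonneg (2 : K), norm_nonneg B]
      have : ‖(2 : K)‖ * ‖B‖ * ‖x‖ ^ 2 ≤ ‖x‖ * ‖x‖ ^ 2 := by gcongr
      calc _ ≤ ‖x‖ * ‖x‖ ^ 2 := this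
        _ = ‖x‖ ^ 3 := by ring
        _ < _ := hx34
    have e2 : ‖8 * C * x‖ < ‖x‖ ^ 4 := by
      rw [norm_mul, norm_mul]
      have : ‖(8 : K)‖ * ‖C‖ ≤ ‖x‖ := by
        nlinarith [norm_nonneg (8 : K), norm_nonneg C]
      have : ‖(8 : K)‖ * ‖C‖ * ‖x‖ ≤ ‖x‖ * ‖x‖ := by gcongr
      calc _ ≤ ‖x‖ * ‖x‖ := this
        _ = ‖x‖ ^ 2 := by ring
        _ < _ := hx24
    have e3 : ‖B ^ 2‖ < ‖x‖ ^ 4 := by
      rw [norm_pow]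
      have : ‖B‖ ^ 2 ≤ ‖x‖ ^ 2 := by
        have : ‖B‖ ≤ ‖x‖ := by linarith
        gcongr
      linarith
    have e4 : ‖4 * A * C‖ < ‖x‖ ^ 4 := by
      rw [norm_mul, norm_mul]
      have h5 : ‖(4 : K)‖ * ‖A‖ ≤ ‖x‖ := by
        nlinarith [norm_nonneg (4 : K), norm_nonneg A]
      have h6 : ‖C‖ ≤ ‖x‖ := by linarith
      have : ‖(4 : K)‖ * ‖A‖ * ‖C‖ ≤ ‖x‖ * ‖x‖ := by gcongr
      calc _ ≤ ‖x‖ * ‖x‖ := this
        _ = ‖x‖ ^ 2 := by ring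
        _ < _ := hx24
    have m : ∀ {a b : K} {M : ℝ}, ‖a‖ < M → ‖b‖ < M → ‖a + b‖ < M := fun ha hb =>
      lt_of_le_of_lt (IsUltrametricDist.norm_add_le_max _ _) (max_lt ha hb)
    have m' : ∀ {a b : K} {M : ℝ}, ‖a‖ < M → ‖b‖ < M → ‖a - b‖ < M := fun ha hb => by
      rw [sub_eq_add_neg]; exact m ha (by rwa [norm_neg])
    rw [norm_add_left, norm_pow]
    rw [norm_pow]
    exact m' (m (m' e1 e2) e3) e4
  obtain ⟨l, hl⟩ : ∃ l : K, 2 * Y * l = 3 * x ^ 2 + 2 * A * x + B :=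
    ⟨(3 * x ^ 2 + 2 * A * x + B) / (2 * Y), by field_simp⟩
  refine ⟨l ^ 2 - A - 2 * x, -(Y + l * (l ^ 2 - A - 2 * x - x)), ?_, ?_⟩
  · linear_combination hY + (l ^ 2 - A - 2 * x - x) * hl
  · have key : (l ^ 2 - A - 2 * x) * (4 * Y ^ 2) =
        x ^ 4 + (-(2 * B * x ^ 2) - 8 * C * x + B ^ 2 - 4 * A * C) := by
      linear_combination (2 * Y * l + (3 * x ^ 2 + 2 * A * x + B)) * hl - 4 * (A + 2 * x) * hY
    have h1 := congrArg norm key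
    rw [hnum, norm_mul, norm_mul, norm_pow, hYn] at h1
    have h3 : 0 < ‖x‖ ^ 3 := by positivity
    have : (‖l ^ 2 - A - 2 * x‖ * ‖(4 : K)‖) * ‖x‖ ^ 3 = ‖x‖ * ‖x‖ ^ 3 := by
      rw [mul_assoc, h1]; ring
    exact mul_right_cancel₀ h3.ne' this

theorem norm_four_lt {K : Type*} [NormedField K] (h2 : ‖(2 : K)‖ < 1) : ‖(4 : K)‖ < 1 := by
  have : (4 : K) = 2 * 2 := by norm_num
  rw [this, norm_mul]
  nlinarith [norm_nonneg (2 : K)]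

/-- A point with large `x`-coordinate gives points with arbitrarily large `x`-coordinates. -/
theorem dbl_large {A B C x Y : K} {R : ℝ} (h20 : (2 : K) ≠ 0) (h2 : ‖(2 : K)‖ < 1)
    (hR : 1 ≤ R) (hA : ‖A‖ ≤ R) (hB : ‖B‖ ≤ R) (hC : ‖C‖ ≤ R)
    (hx : R < ‖x‖) (hY : Y ^ 2 = x ^ 3 + A * x ^ 2 + B * x + C) (T : ℝ) :
    ∃ x' Y' : K, Y' ^ 2 = x' ^ 3 + A * x' ^ 2 + B * x' + C ∧ T < ‖x'‖ := by
  have h4 := norm_four_lt h2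
  have h40 : 0 < ‖(4 : K)‖ := by
    have : (4 : K) = 2 * 2 := by norm_num
    rw [this]
    exact norm_pos_iff.mpr (mul_ne_zero h20 h20)
  have hx0 : 0 < ‖x‖ := by linarith
  have step : ∀ n : ℕ, ∃ x' Y' : K, Y' ^ 2 = x' ^ 3 + A * x' ^ 2 + B * x' + C ∧
      ‖x'‖ * ‖(4 : K)‖ ^ n = ‖x‖ := by
    intro n
    induction n with
    | zero => exact ⟨x, Y, hY, by simp⟩
    | succ n ih =>
      obtain ⟨x1, Y1, h1, h3⟩ := ih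
      have hle : ‖x‖ ≤ ‖x1‖ := by
        rw [← h3]
        have : ‖(4 : K)‖ ^ n ≤ 1 := pow_le_one₀ h40.le h4.le
        nlinarith [norm_nonneg x1]
      obtain ⟨x2, Y2, h5, h6⟩ := dbl_step' h20 h2 hR hA hB hC (lt_of_lt_of_le hx hle) h1
      refine ⟨x2, Y2, h5, ?_⟩
      rw [pow_succ, mul_comm (‖(4 : K)‖ ^ n), ← mul_assoc, h6, h3]
  obtain ⟨n, hn⟩ : ∃ n : ℕ, ‖(4 : K)‖ ^ n * (|T| + 1) < ‖x‖ := by
    have h := exists_pow_lt_of_lt_one (div_pos hx0 (by positivity : (0 : ℝ) < |T| + 1)) h4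
    obtain ⟨n, hn⟩ := h
    exact ⟨n, by rwa [lt_div_iff₀ (by positivity)] at hn⟩
  obtain ⟨x', Y', h1, h3⟩ := step n
  refine ⟨x', Y', h1, ?_⟩
  have hp : 0 < ‖(4 : K)‖ ^ n := pow_pos h40 n
  have h5 : ‖(4 : K)‖ ^ n * (|T| + 1) < ‖(4 : K)‖ ^ n * ‖x'‖ := by
    rw [mul_comm (‖(4 : K)‖ ^ n) ‖x'‖, h3]
    exact hn
  have h6 := lt_of_mul_lt_mul_left h5 hp.le
  have := le_abs_self T
  linarith

/-- Arbitrarily small `s ≠ 0` such that the quartic takes a square value. -/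
theorem quartic_near {u q1 q2 q3 q4 : K} {R : ℝ} (h20 : (2 : K) ≠ 0) (h2 : ‖(2 : K)‖ < 1)
    (hu : u ≠ 0) (hR : 1 ≤ R) (hA : ‖q2‖ ≤ R) (hB : ‖q1 * q3 - 4 * u ^ 2 * q4‖ ≤ R)
    (hC : ‖q1 ^ 2 * q4 + u ^ 2 * q3 ^ 2 - 4 * u ^ 2 * q2 * q4‖ ≤ R)
    (hx : R < ‖q1 ^ 2 / (4 * u ^ 2) - q2‖) {ε : ℝ} (hε : 0 < ε) :
    ∃ s w : K, s ≠ 0 ∧ ‖s‖ < ε ∧
      w ^ 2 = u ^ 2 + q1 * s + q2 * s ^ 2 + q3 * s ^ 3 + q4 * s ^ 4 := by
  set xP := q1 ^ 2 / (4 * u ^ 2) - q2 with hxP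
  have h40 : (4 : K) ≠ 0 := by
    have : (4 : K) = 2 * 2 := by norm_num
    rw [this]; exact mul_ne_zero h20 h20
  have hxP' : 4 * u ^ 2 * (xP + q2) = q1 ^ 2 := by rw [hxP]; field_simp; ring
  set A := q2 with hAdef
  set B := q1 * q3 - 4 * u ^ 2 * q4 with hBdef
  set C := q1 ^ 2 * q4 + u ^ 2 * q3 ^ 2 - 4 * u ^ 2 * A * q4 with hCdef
  have hYP : ((-(q1 * xP / u) - 2 * u * q3) / 2) ^ 2 = xP ^ 3 + A * xP ^ 2 + B * xP + C := by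
    have e : ((-(q1 * xP / u) - 2 * u * q3) / 2) ^ 2 =
        (q1 ^ 2 * xP ^ 2 + 4 * u ^ 2 * q1 * q3 * xP + 4 * u ^ 4 * q3 ^ 2) / (4 * u ^ 2) := by
      field_simp
      ring
    rw [e, div_eq_iff (mul_ne_zero h40 (pow_ne_zero 2 hu)), hBdef, hCdef]
    linear_combination (-(xP ^ 2) + 4 * u ^ 2 * q4) * hxP'
  obtain ⟨r, hr⟩ : ∃ r : K, 2 * u * r = q1 := ⟨q1 / (2 * u), by field_simp⟩
  obtain ⟨x, Y, hY, hT⟩ := dbl_large h20 h2 hR hA hB hC hx hYP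
    (1 + R + ‖xP‖ + ‖r‖ ^ 2 + ‖u * q3‖ + (‖2 * u‖ / ε) ^ 2)
  have n1 := norm_nonneg xP
  have n2 := norm_nonneg r
  have n3 := norm_nonneg (u * q3)
  have n4 := norm_nonneg (2 * u)
  have hb1 : R < ‖x‖ := by nlinarith [sq_nonneg ‖r‖, sq_nonneg (‖2 * u‖ / ε)]
  have hb2 : ‖xP‖ < ‖x‖ := by nlinarith [sq_nonneg ‖r‖, sq_nonneg (‖2 * u‖ / ε)]
  have hb3 : ‖r‖ ^ 2 < ‖x‖ := by nlinarith [sq_nonneg ‖r‖, sq_nonneg (‖2 * u‖ / ε)]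
  have hb4 : ‖u * q3‖ < ‖x‖ := by nlinarith [sq_nonneg ‖r‖, sq_nonneg (‖2 * u‖ / ε)]
  have hb5 : (‖2 * u‖ / ε) ^ 2 < ‖x‖ := by nlinarith [sq_nonneg ‖r‖, sq_nonneg (‖2 * u‖ / ε)]
  have hx1 : 1 < ‖x‖ := lt_of_le_of_lt hR hb1
  have hx0 : 0 < ‖x‖ := by linarith
  have hYn : ‖Y‖ ^ 2 = ‖x‖ ^ 3 := by rw [← norm_pow, hY, norm_cubic hR hA hB hC hb1]
  have hYpos : 0 < ‖Y‖ := by
    rcases (norm_nonneg Y).lt_or_eq with h | h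
    · exact h
    · exfalso
      rw [← h] at hYn
      have := pow_pos hx0 3
      rw [← hYn] at this
      simp at this
  have hr1 : ‖r * x‖ < ‖Y‖ := by
    apply lt_of_pow_lt_pow_left₀ 2 hYpos.le
    rw [hYn, norm_mul, mul_pow, show ‖x‖ ^ 3 = ‖x‖ * ‖x‖ ^ 2 by ring]
    exact mul_lt_mul_of_pos_right hb3 (pow_pos hx0 2)
  have hr2 : ‖u * q3‖ < ‖Y‖ := by
    apply lt_of_pow_lt_pow_left₀ 2 hYpos.le
    rw [hYn]
    have : ‖u * q3‖ ^ 2 ≤ ‖x‖ ^ 2 := by gcongr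
    have : ‖x‖ ^ 2 < ‖x‖ ^ 3 := pow_lt_pow_right₀ hx1 (by norm_num)
    linarith
  set y := Y - r * x - u * q3 with hy
  have hyn : ‖y‖ = ‖Y‖ := by
    have : y = Y + (-(r * x) + -(u * q3)) := by rw [hy]; ring
    rw [this]
    apply norm_add_left
    refine lt_of_le_of_lt (IsUltrametricDist.norm_add_le_max _ _) (max_lt ?_ ?_)
    · rwa [norm_neg]
    · rwa [norm_neg]
  have hy0 : y ≠ 0 := by
    rw [← norm_pos_iff, hyn]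
    exact hYpos
  have hxx : ‖x - xP‖ = ‖x‖ := by
    rw [sub_eq_add_neg]
    apply norm_add_left
    rwa [norm_neg]
  have hx1' : x - xP ≠ 0 := by
    rw [← norm_pos_iff, hxx]
    exact hx0
  have hxP2 : xP + A = r ^ 2 := by
    have h44 : (4 * u ^ 2) * (xP + A) = (4 * u ^ 2) * r ^ 2 := by
      rw [hxP', ← hr]; ring
    exact mul_left_cancel₀ (mul_ne_zero h40 (pow_ne_zero 2 hu)) h44
  have hprod : y * (Y + r * x + u * q3) = (x - xP) * (x ^ 2 - 4 * u ^ 2 * q4) := by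
    rw [hy]
    have : (Y - r * x - u * q3) * (Y + r * x + u * q3) = Y ^ 2 - (r * x + u * q3) ^ 2 := by ring
    rw [this, hY, hBdef, hCdef, ← hr]
    linear_combination (x ^ 2 - 4 * u ^ 2 * q4) * hxP2
  set s := 2 * u * (x - xP) / y with hs
  have hs0 : s ≠ 0 := div_ne_zero (mul_ne_zero (mul_ne_zero h20 hu) hx1') hy0
  have hsy : s * y = 2 * u * (x - xP) := by rw [hs]; field_simp
  obtain ⟨W, hW⟩ : ∃ W : K, 2 * u * (W + u) = s * (s * x - q1) :=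
    ⟨-u + s * (s * x - q1) / (2 * u), by field_simp; ring⟩
  have hk : s * (x ^ 2 - 4 * u ^ 2 * q4) = 2 * u * (y + 2 * (r * x + u * q3)) := by
    have h5 : y * (s * (x ^ 2 - 4 * u ^ 2 * q4)) =
        y * (2 * u * (y + 2 * (r * x + u * q3))) := by
      have h6 : y * (y + 2 * (r * x + u * q3)) = (x - xP) * (x ^ 2 - 4 * u ^ 2 * q4) := by
        rw [← hprod, hy]; ring
      linear_combination (x ^ 2 - 4 * u ^ 2 * q4) * hsy - 2 * u * h6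
    exact mul_left_cancel₀ hy0 h5
  have hWQ : W ^ 2 = u ^ 2 + q1 * s + A * s ^ 2 + q3 * s ^ 3 + q4 * s ^ 4 := by
    have h7 : (4 * u ^ 2) * W ^ 2 =
        (4 * u ^ 2) * (u ^ 2 + q1 * s + A * s ^ 2 + q3 * s ^ 3 + q4 * s ^ 4) := by
      rw [← hr] at hW ⊢
      linear_combination (2 * u * W + (s * (s * x - 2 * u * r) - 2 * u ^ 2)) * hW +
        s ^ 2 * (s * hk + 2 * u * hsy - 4 * u ^ 2 * hxP2)
    exact mul_left_cancel₀ (mul_ne_zero h40 (pow_ne_zero 2 hu)) h7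
  refine ⟨s, W, hs0, ?_, hWQ⟩
  -- the norm of `s`
  have h8 : ‖s‖ * ‖Y‖ = ‖2 * u‖ * ‖x‖ := by
    rw [← hyn, ← norm_mul, hsy, norm_mul, hxx]
  have h9 : ‖2 * u‖ ^ 2 < ε ^ 2 * ‖x‖ := by
    rw [div_pow, div_lt_iff₀ (by positivity)] at hb5
    linarith
  apply lt_of_pow_lt_pow_left₀ 2 hε.le
  have h10 : ‖s‖ ^ 2 * ‖x‖ ^ 3 < ε ^ 2 * ‖x‖ ^ 3 := by
    rw [← hYn, ← mul_pow, h8, mul_pow, hYn, show ε ^ 2 * ‖x‖ ^ 3 = (ε ^ 2 * ‖x‖) * ‖x‖ ^ 2 by ring]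
    exact mul_lt_mul_of_pos_right h9 (pow_pos hx0 2)
  exact lt_of_mul_lt_mul_right h10 (pow_pos hx0 3).le

end Pool.Agent.L0h9.Tri
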