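import Pool.Agent.L0h9.Tri.Core

/-! Restrictions of polynomials to coordinate subspaces, and translations. -/

namespace Pool.Agent.L0h9.Tri

open MvPolynomial

/-- `P(a₀, …, a_{i-1}, x_i, …, x_r)`. -/
noncomputable def truncate {K : Type*} [Field K] {r : ℕ} (P : MvPolynomial (Fin r) K)
    (a : Fin r → K) (i : Fin r) : MvPolynomial (Fin r) K :=
  aeval (fun j => if j < i then C (a j) else X j) P

/-- `P(0, x₁, …, x_r)`. -/
noncomputable def tailHom (K : Type*) [Field K] (r : ℕ) :
    MvPolynomial (Fin (r + 1)) K →ₐ[K] MvPolynomial (Fin r) K :=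
  aeval (Fin.cons 0 (fun j => X j))

section

variable {K : Type*} [Field K] {r : ℕ}

theorem tailHom_C (c : K) : tailHom K r (C c) = C c := by
  rw [tailHom, algHom_C]; rfl

theorem tailHom_X_zero : tailHom K r (X 0) = 0 := by
  rw [tailHom, aeval_X, Fin.cons_zero]

theorem tailHom_X_succ (j : Fin r) : tailHom K r (X j.succ) = X j := by
  rw [tailHom, aeval_X, Fin.cons_succ]

theorem tailHom_eq (P : MvPolynomial (Fin (r + 1)) K) :
    tailHom K r P = (finSuccEquiv K r P).coeff 0 := by
  induction P using MvPolynomial.induction_on with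
  | C c =>
    rw [tailHom_C, finSuccEquiv_apply]
    simp
  | add p q hp hq => rw [map_add, map_add, Polynomial.coeff_add, hp, hq]
  | mul_X p n hp =>
    rw [map_mul, map_mul, Polynomial.mul_coeff_zero, hp]
    congr 1
    refine Fin.cases ?_ (fun j => ?_) n
    · rw [tailHom_X_zero, finSuccEquiv_X_zero, Polynomial.coeff_X_zero]
    · rw [tailHom_X_succ, finSuccEquiv_X_succ, Polynomial.coeff_C_zero]

theorem coeff_one_eq (P : MvPolynomial (Fin (r + 1)) K) :
    (finSuccEquiv K r P).coeff 1 = tailHom K r (pderiv 0 P) := by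
  induction P using MvPolynomial.induction_on with
  | C c =>
    rw [pderiv_C, map_zero, finSuccEquiv_apply]
    simp
  | add p q hp hq => rw [map_add, map_add, map_add, Polynomial.coeff_add, hp, hq]
  | mul_X p n hp =>
    rw [map_mul, pderiv_mul, map_add, map_mul, map_mul]
    refine Fin.cases ?_ (fun j => ?_) n
    · rw [finSuccEquiv_X_zero, Polynomial.coeff_mul_X, tailHom_X_zero, pderiv_X_self, map_one,
        mul_zero, zero_add, mul_one, tailHom_eq]
    · rw [finSuccEquiv_X_succ, Polynomial.coeff_mul_C, hp, tailHom_X_succ,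
        pderiv_X_of_ne (Fin.succ_ne_zero j), map_zero, mul_zero, add_zero]

theorem pderiv_tailHom (P : MvPolynomial (Fin (r + 1)) K) (i : Fin r) :
    pderiv i (tailHom K r P) = tailHom K r (pderiv i.succ P) := by
  classical
  induction P using MvPolynomial.induction_on with
  | C c => rw [tailHom_C, pderiv_C, pderiv_C, map_zero]
  | add p q hp hq => rw [map_add, map_add, map_add, map_add, hp, hq]
  | mul_X p n hp =>
    rw [map_mul, pderiv_mul, hp, pderiv_mul, map_add, map_mul, map_mul]
    congr 2
    refine Fin.cases ?_ (fun j => ?_) n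
    · rw [tailHom_X_zero, map_zero, pderiv_X_of_ne (Fin.succ_ne_zero i).symm, map_zero]
    · rw [tailHom_X_succ, pderiv_X, pderiv_X, Pi.single_apply, Pi.single_apply]
      by_cases h : j = i
      · rw [if_pos h, if_pos (by rw [h]), map_one]
      · rw [if_neg h, if_neg (by rwa [Fin.succ_inj]), map_zero]

theorem eval_tailHom (P : MvPolynomial (Fin (r + 1)) K) (x : Fin r → K) :
    eval x (tailHom K r P) = eval (Fin.cons 0 x : Fin (r + 1) → K) P := by
  rw [tailHom_eq, tail_eval_zero P 0 x rfl]

theorem eval_zero_tailHom (P : MvPolynomial (Fin (r + 1)) K) :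
    eval 0 (tailHom K r P) = eval 0 P := by
  rw [eval_tailHom]
  have : (Fin.cons 0 0 : Fin (r + 1) → K) = 0 := by
    funext j
    refine Fin.cases ?_ (fun i => ?_) j <;> simp
  rw [this]

theorem truncate_succ (P : MvPolynomial (Fin (r + 1)) K) (i : Fin r) :
    truncate P 0 i.succ = rename Fin.succ (truncate (tailHom K r P) 0 i) := by
  have h : (aeval (fun j => if j < i.succ then C ((0 : Fin (r + 1) → K) j) else X j) :
      MvPolynomial (Fin (r + 1)) K →ₐ[K] MvPolynomial (Fin (r + 1)) K) =
      ((rename Fin.succ : MvPolynomial (Fin r) K →ₐ[K] MvPolynomial (Fin (r + 1)) K).comp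
        (aeval (fun j => if j < i then C ((0 : Fin r → K) j) else X j))).comp (tailHom K r) := by
    apply MvPolynomial.algHom_ext
    intro j
    refine Fin.cases ?_ (fun k => ?_) j
    · rw [aeval_X, if_pos (Fin.succ_pos i), AlgHom.comp_apply, AlgHom.comp_apply, tailHom_X_zero,
        map_zero, map_zero, Pi.zero_apply, C_0]
    · rw [aeval_X, AlgHom.comp_apply, AlgHom.comp_apply, tailHom_X_succ, aeval_X]
      by_cases hk : k < i
      · rw [if_pos (Fin.succ_lt_succ_iff.mpr hk), if_pos hk, Pi.zero_apply, Pi.zero_apply, C_0,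
          C_0, map_zero]
      · rw [if_neg (fun h => hk (Fin.succ_lt_succ_iff.mp h)), if_neg hk, rename_X]
  exact congrArg (fun φ => φ P) h

theorem truncate_zero (P : MvPolynomial (Fin (r + 1)) K) (a : Fin (r + 1) → K) :
    truncate P a 0 = P := by
  rw [truncate]
  have : (fun j : Fin (r + 1) => if j < 0 then C (a j) else (X j : MvPolynomial (Fin (r + 1)) K)) =
      X := by
    funext j
    rw [if_neg (Fin.not_lt_zero j)]
  rw [this, aeval_X_left_apply]

/-- The conditions at the origin imply `Good`. -/
theorem good_of_cond : ∀ (r : ℕ) (P : MvPolynomial (Fin (r + 1)) K),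
    (∀ i, degreeOf i (truncate P 0 i) ≤ 4) →
    (∀ i, i < Fin.last r → 2 < degreeOf i (truncate P 0 i) → eval 0 (pderiv i P) ≠ 0) →
    Good r P := by
  intro r
  induction r with
  | zero => intro P _ _; trivial
  | succ r ih =>
    intro P h1 h2
    have h3 := h1 0
    have h4 := h2 0 Fin.last_pos
    rw [truncate_zero] at h3 h4
    refine ⟨?_, ?_⟩
    · by_cases h : degreeOf 0 P ≤ 2
      · exact Or.inl h
      · refine Or.inr ⟨h3, ?_⟩
        rw [coeff_one_eq, eval_zero_tailHom]
        exact h4 (by omega)
    · rw [← tailHom_eq]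
      have hd : ∀ i : Fin (r + 1), degreeOf i (truncate (tailHom K (r + 1) P) 0 i) =
          degreeOf i.succ (truncate P 0 i.succ) := by
        intro i
        rw [truncate_succ, degreeOf_rename_of_injective (Fin.succ_injective _)]
      refine ih _ (fun i => ?_) (fun i hi h5 => ?_)
      · rw [hd]; exact h1 i.succ
      · rw [pderiv_tailHom, eval_zero_tailHom]
        refine h2 i.succ ?_ ?_
        · rw [← Fin.succ_last]
          exact Fin.succ_lt_succ_iff.mpr hi
        · rwa [← hd]

end

section translation

variable {K : Type*} [Field K] {r : ℕ}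

/-- `P(x + a)`. -/
noncomputable def shift (a : Fin r → K) : MvPolynomial (Fin r) K →ₐ[K] MvPolynomial (Fin r) K :=
  aeval (fun j => X j + C (a j))

theorem eval_shift (a x : Fin r → K) (P : MvPolynomial (Fin r) K) :
    eval x (shift a P) = eval (fun j => x j + a j) P := by
  have h : ((aeval x : MvPolynomial (Fin r) K →ₐ[K] K).comp (shift a)) =
      aeval (fun j => x j + a j) := by
    apply MvPolynomial.algHom_ext
    intro j
    rw [AlgHom.comp_apply, shift, aeval_X, aeval_X, map_add, aeval_X, algHom_C]
    rfl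
  have h1 := congrArg (fun φ => φ P) h
  simp only [AlgHom.comp_apply] at h1
  rw [aeval_eq_eval] at h1
  rw [← aeval_eq_eval]
  exact h1

theorem degreeOf_aeval_le {i : Fin r} (f : Fin r → MvPolynomial (Fin r) K)
    (hf : ∀ j, degreeOf i (f j) ≤ if j = i then 1 else 0) (P : MvPolynomial (Fin r) K) :
    degreeOf i (aeval f P) ≤ degreeOf i P := by
  rw [aeval_def, eval₂_eq']
  refine (degreeOf_sum_le i _ _).trans ?_
  refine Finset.sup_le fun m hm => ?_
  refine (degreeOf_mul_le i _ _).trans ?_
  have h1 : degreeOf i (algebraMap K (MvPolynomial (Fin r) K) (coeff m P)) = 0 := by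
    rw [algebraMap_eq, degreeOf_C]
  rw [h1, zero_add]
  refine (degreeOf_prod_le i _ _).trans ?_
  have h2 : ∀ j, degreeOf i (f j ^ m j) ≤ if j = i then m i else 0 := by
    intro j
    refine (degreeOf_pow_le i (f j) (m j)).trans ?_
    have := hf j
    by_cases h : j = i
    · rw [if_pos h] at this ⊢
      rw [h] at this ⊢
      calc m i * degreeOf i (f i) ≤ m i * 1 := Nat.mul_le_mul_left _ this
        _ = m i := mul_one _
    · rw [if_neg h] at this ⊢
      rw [Nat.le_zero.mp this, mul_zero]
  refine (Finset.sum_le_sum fun j _ => h2 j).trans ?_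
  rw [Finset.sum_ite_eq' Finset.univ i, if_pos (Finset.mem_univ _)]
  exact monomial_le_degreeOf i hm

theorem pderiv_shift (a : Fin r → K) (i : Fin r) (P : MvPolynomial (Fin r) K) :
    pderiv i (shift a P) = shift a (pderiv i P) := by
  classical
  induction P using MvPolynomial.induction_on with
  | C c =>
    have : shift a (C c) = C c := by rw [shift, algHom_C]; rfl
    rw [this, pderiv_C, map_zero]
  | add p q hp hq => rw [map_add, map_add, map_add, map_add, hp, hq]
  | mul_X p n hp =>
    rw [map_mul, pderiv_mul, hp, pderiv_mul, map_add, map_mul, map_mul]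
    congr 2
    rw [shift, aeval_X, map_add, pderiv_C, add_zero, pderiv_X, Pi.single_apply]
    by_cases h : n = i
    · rw [if_pos h, map_one]
    · rw [if_neg h, map_zero]

theorem truncate_shift (a : Fin r → K) (i : Fin r) (P : MvPolynomial (Fin r) K) :
    truncate (shift a P) 0 i = shift a (truncate P a i) := by
  have h : ((aeval (fun j => if j < i then C ((0 : Fin r → K) j) else X j) :
      MvPolynomial (Fin r) K →ₐ[K] MvPolynomial (Fin r) K).comp (shift a)) =
      (shift a).comp (aeval (fun j => if j < i then C (a j) else X j)) := by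
    apply MvPolynomial.algHom_ext
    intro j
    have hC : ∀ (φ : MvPolynomial (Fin r) K →ₐ[K] MvPolynomial (Fin r) K) (c : K),
        φ (C c) = C c := fun φ c => by rw [algHom_C]; rfl
    rw [AlgHom.comp_apply, AlgHom.comp_apply, aeval_X]
    have h1 : shift a (X j) = X j + C (a j) := by rw [shift, aeval_X]
    rw [h1, map_add, aeval_X, hC]
    by_cases hj : j < i
    · rw [if_pos hj, if_pos hj, hC, Pi.zero_apply, C_0, zero_add]
    · rw [if_neg hj, if_neg hj, h1]
  exact congrArg (fun φ => φ P) h

theorem degreeOf_shift_le (a : Fin r → K) (i : Fin r) (P : MvPolynomial (Fin r) K) :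
    degreeOf i (shift a P) ≤ degreeOf i P := by
  classical
  refine degreeOf_aeval_le _ (fun j => ?_) P
  refine (degreeOf_add_le i _ _).trans ?_
  rw [degreeOf_C, max_eq_left (Nat.zero_le _), degreeOf_X]
  by_cases h : j = i
  · rw [if_pos h, if_pos h.symm]
  · rw [if_neg h, if_neg (fun h' => h h'.symm)]

theorem good_shift {r : ℕ} (P : MvPolynomial (Fin (r + 1)) K) (a : Fin (r + 1) → K)
    (h1 : ∀ i, degreeOf i (truncate P a i) ≤ 4)
    (h2 : ∀ i, i < Fin.last r → 2 < degreeOf i (truncate P a i) → eval a (pderiv i P) ≠ 0) :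
    Good r (shift a P) := by
  apply good_of_cond
  · intro i
    rw [truncate_shift]
    exact (degreeOf_shift_le a i _).trans (h1 i)
  · intro i hi h3
    rw [truncate_shift] at h3
    rw [pderiv_shift, eval_shift]
    have := h2 i hi (lt_of_lt_of_le h3 (degreeOf_shift_le a i _))
    simpa using this

end translation

end Pool.Agent.L0h9.Tri
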